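import Pool.Agent.H38.EN.Defs
import Pool.Agent.H57.SL.Def

/-!
# AQ (MP_b39724_nt): Malle's conjecture for `A_4` in degree 4 over EVERY number field. Definitions (complete)

Text: think 1535 and the master text (think, helper67). `K ⊂ QBar` is any number field, `S` a finite set of primes of `K` which contains the primes over
2 and 3. All objects are those of T3 (H48/T3/Defs, H38/MT/Defs): `χ ∈ H38.MT.Ch K` the surjective characters of finite type `Gal(QBar/K) → ZMod 3`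
(two for every cyclic cubic field `FX χ`), `cf Q S χ` the product of the norms of the primes outside `S` at which `χ` is ramified, `Spt Q χ l`: `χ` is
trivial on the decomposition group at `l`, `mq Q S χ Y = ∑_q 3 ^ #q` (split primes outside `S`), `Teq S Q χ χ'` the same restriction to the
decomposition groups at the primes of `S`, `Fib` the lifts with `ds φ = d`, `H57.LI.AP` the pairs (cyclic cubic field, quadratic ray class character).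

* `No3 K`: `K` does not contain the cube roots of unity. `mu Q χ l = 2` if `Spt Q χ l`, `-1` otherwise.
* `WLog Q S r` (chapter W): the sum of `selg (FX χ)` over `cf χ ≤ X` is at most `C X (1 + log X) ^ (r - δ)`; `r = 2` if `K` contains `ω` (this is
  `H38.EN.sms`, to be proved without `i`), `r = 1` if not.
* `FBS k Q S` (chapter FB): fibre formula and upper bound, for every `K` (no `ω`, no `i`).
* `ICG n` (chapter LI): `H57.LI.ICS n` for all number fields of degree `n` (any signature).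
* `CRC S Q` (chapter CR): the ray class character of `χ` if `K` does not contain `ω`.
* `MS3 S Q` (chapter M3): the number of the `χ` of one type at `S`, with weights `∏_{l ∈ q} mu l`, uniformly in `q`. `LF3`: finitely many types.
* `LA3`, `LA4`, `LA5` (chapter LA): the main term of one fibre, `Am χ` its mean value; few exceptions; the mean of `Am`.
-/

set_option autoImplicit false

open scoped NumberField Classical
open IsDedekindDomain H38.ML H63.MA H48.KV Filter Topology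
open H48.T3 hiding Ch

noncomputable section

namespace H67.AQ

/-- `K` does not contain the cube roots of unity -/
def No3 (K : IntermediateField ℚ QBar) : Prop := ∀ ω : K, ¬ IsPrimitiveRoot ω 3

/-- CHAPTER LI: sums of a nontrivial ray class character over the ideals of norm at most `M`, uniformly in the number field of degree `n` -/
def ICG (n : ℕ) : Prop :=
  ∃ (C : ℝ) (A : ℕ) (δ : ℝ), 1 ≤ C ∧ 0 < δ ∧ δ ≤ 1 / 4 ∧
    ∀ (F : Type) [Field F] [NumberField F], Module.finrank ℚ F = n →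
    ∀ 𝔣 : Ideal (𝓞 F), 𝔣 ≠ ⊥ → ∀ ψ : RC F 𝔣, ψ.Non → ∀ M : ℝ, 1 ≤ M →
      ‖∑ I ∈ IN F M, ψ.χ I‖ ≤ C * (H36.QA.dd F * Ideal.absNorm 𝔣) ^ A * M ^ (1 - δ)

variable {K : IntermediateField ℚ QBar} [NumberField K]

/-- CHAPTER W -/
def WLog (Q : DP K QBar) (S : Finset (Pl K)) (r : ℕ) : Prop :=
  ∃ C δ : ℝ, 1 ≤ C ∧ 0 < δ ∧ δ ≤ 1 ∧ ∀ X : ℝ, 1 ≤ X →
    {χ : Gal(QBar/K) →* Multiplicative (ZMod 3) | χ ∈ H38.MT.Ch K ∧ H38.MT.cf Q S χ ≤ X}.Finite ∧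
    ∀ T : Finset (Gal(QBar/K) →* Multiplicative (ZMod 3)),
      (∀ χ ∈ T, χ ∈ H38.MT.Ch K ∧ H38.MT.cf Q S χ ≤ X) →
      ∑ χ ∈ T, (selg (FX χ) : ℝ) ≤ C * X * (1 + Real.log X) ^ ((r : ℝ) - δ)

/-- CHAPTER FB: the fibre formula and the upper bound -/
def FBS {G : Type} [Group G] (k : KV G) (Q : DP K QBar) (S : Finset (Pl K)) : Prop :=
  ∀ ds : (Gal(QBar/K) →* G) → ℕ, LocInv Q S ds →
    (∃ Df : Finset ℕ, ∀ φ : Gal(QBar/K) →* G, FT φ → Function.Surjective φ → ds φ ∈ Df) ∧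
    ∃ (C : ℝ) (W : ℕ → (Gal(QBar/K) →* Multiplicative (ZMod 3)) → ℝ), 1 ≤ C ∧
      (∀ d χ, 0 ≤ W d χ ∧ W d χ ≤ C) ∧
      (∀ d, ∀ χ ∈ H38.MT.Ch K, ∀ χ' ∈ H38.MT.Ch K, Teq S Q χ χ' → W d χ = W d χ') ∧
      (∀ χ ∈ H38.MT.Ch K, ∃ d, 0 < W d χ) ∧
      ∀ (d : ℕ), ∀ χ ∈ H38.MT.Ch K, ∃ Z : Finset (H57.LI.AP K QBar (mS S)), (∀ x ∈ Z, x.F = FX χ) ∧
        (Z.card : ℝ) ≤ C * selg (FX χ) ∧
        ∀ Y : ℝ, 1 ≤ Y → (Fib k Q S ds χ d Y).Finite ∧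
          |((Fib k Q S ds χ d Y).ncard : ℝ) - W d χ * H38.MT.mq Q S χ Y| ≤
            C + C * ∑ x ∈ Z, |∑ q ∈ IN K Y, x.lq q| ∧
          ((Fib k Q S ds χ d Y).ncard : ℝ) ≤ C * selg (FX χ) * ∑ q ∈ AF K Y, (3 : ℝ) ^ q.card

/-- `λ - 1` -/
def mu (Q : DP K QBar) (χ : Gal(QBar/K) →* Multiplicative (ZMod 3)) (l : Pl K) : ℝ :=
  if H38.MT.Spt Q χ l then 2 else -1

/-- CHAPTER CR: the cubic ray class character of `χ` -/
def CRC (S : Finset (Pl K)) (Q : DP K QBar) : Prop :=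
  ∀ χ ∈ H38.MT.Ch K, ∃ ψ : RC K (H57.SL.mB (S ∪ H38.MT.rf Q S χ)), ψ.Non ∧
    ∀ l : Pl K, l ∉ S → l ∉ H38.MT.rf Q S χ → (nm l).Prime →
      ψ.χ l.asIdeal = ep 3 (Multiplicative.toAdd (χ (H57.SL.fr Q l)))

/-- CHAPTER M3: the characters of one type at `S` with local conditions at the primes of `q` -/
def MS3 (S : Finset (Pl K)) (Q : DP K QBar) : Prop :=
  ∀ χ₁ ∈ H38.MT.Ch K, ∃ (κ : ℝ) (m : Pl K → ℝ) (C : ℝ) (A : ℕ) (δ : ℝ), 0 < κ ∧ 1 ≤ C ∧ 0 < δ ∧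
    δ ≤ 1 ∧ (∀ l, |m l| ≤ C / nm l) ∧ (∀ l, -1 ≤ m l) ∧
    ∀ q : Finset (Pl K), (∀ l ∈ q, l ∉ S) → ∀ R : ℝ, 1 ≤ R → (H38.MT.CX Q S χ₁ R).Finite ∧
      |(∑ᶠ χ ∈ H38.MT.CX Q S χ₁ R, ∏ l ∈ q, mu Q χ l) - κ * R * ∏ l ∈ q, m l| ≤
        C * nr q ^ A * R ^ (1 - δ)

/-- CHAPTER M3: finitely many types -/
def LF3 (S : Finset (Pl K)) (Q : DP K QBar) : Prop :=
  ∃ T : Finset (Gal(QBar/K) →* Multiplicative (ZMod 3)), (∀ χ ∈ T, χ ∈ H38.MT.Ch K) ∧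
    ∀ χ ∈ H38.MT.Ch K, ∃ χ' ∈ T, Teq S Q χ χ'

/-- CHAPTER LA: the main term of one fibre: `Am` is the mean value -/
def LA3 (S : Finset (Pl K)) (Q : DP K QBar)
    (Am : (Gal(QBar/K) →* Multiplicative (ZMod 3)) → ℝ) : Prop :=
  ∃ (C : ℝ) (A : ℕ) (δ : ℝ), 1 ≤ C ∧ 0 < δ ∧ δ ≤ 1 ∧ ∀ χ ∈ H38.MT.Ch K,
    0 ≤ Am χ ∧ Am χ ≤ C * (1 + Real.log (H38.MT.cf Q S χ)) ^ 3 ∧
    ∀ Y : ℝ, 1 ≤ Y → |H38.MT.mq Q S χ Y - Am χ * Y| ≤ C * H38.MT.cf Q S χ ^ A * Y ^ (1 - δ)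

/-- CHAPTER LA: the main term, few exceptions -/
def LA4 (S : Finset (Pl K)) (Q : DP K QBar)
    (Am : (Gal(QBar/K) →* Multiplicative (ZMod 3)) → ℝ) : Prop :=
  ∀ (A₁ B : ℕ) (ε : ℝ), 0 < ε → ∃ R₀ : ℝ, 3 ≤ R₀ ∧ ∀ R : ℝ, R₀ ≤ R →
    ∀ J : Set (Gal(QBar/K) →* Multiplicative (ZMod 3)),
    (∀ χ ∈ J, χ ∈ H38.MT.Ch K ∧ H38.MT.cf Q S χ ≤ R ^ A₁ ∧
      ∃ Y : ℝ, Real.exp (Real.log (Real.log R) ^ 3) ≤ Y ∧
        Y / Real.log R ^ B < |H38.MT.mq Q S χ Y - Am χ * Y|) →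
    J.Finite ∧ (J.ncard : ℝ) ≤ R ^ ε

/-- CHAPTER LA: the mean of `Am` over the characters of one type at `S` -/
def LA5 (S : Finset (Pl K)) (Q : DP K QBar)
    (Am : (Gal(QBar/K) →* Multiplicative (ZMod 3)) → ℝ) : Prop :=
  ∀ χ₁ ∈ H38.MT.Ch K, ∃ a : ℝ, 0 < a ∧
    Tendsto (fun R : ℝ => (∑ᶠ χ ∈ H38.MT.CX Q S χ₁ R, Am χ) / R) atTop (𝓝 a)

end H67.AQ
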