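import Pool.Agent.H67.AQ.Defs
import Pool.Agent.H38.MT.BA

/-!
# AQ (MP_b39724_nt), end of case B: the conductor, the number of characters, the mean value (complete, proved)

* `Dn`: the conductor outside `S` as a natural number. `cnt3`: the number of characters, from `MS3` (with `q = ∅`) and `LF3`.
* `mab`: the mean value over the characters, from `LA5` and `LF3` (pattern `mai` in H38/EN/Mai.lean and `mea` in H38/SE/Mea.lean).
-/

set_option autoImplicit false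

open scoped NumberField Classical
open IsDedekindDomain H38.ML H63.MA H48.KV Filter Topology
open H48.T3 hiding Ch

noncomputable section

namespace H67.AQ

variable {K : IntermediateField ℚ QBar} [NumberField K]

/-- the conductor outside `S` -/
def Dn (Q : DP K QBar) (S : Finset (Pl K)) (χ : Gal(QBar/K) →* Multiplicative (ZMod 3)) : ℕ :=
  ∏ v ∈ H38.MT.rf Q S χ, nm v

theorem dn_cast (Q : DP K QBar) (S : Finset (Pl K))
    (χ : Gal(QBar/K) →* Multiplicative (ZMod 3)) : (Dn Q S χ : ℝ) = H38.MT.cf Q S χ := by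
  unfold Dn H38.MT.cf nr
  push_cast
  rfl

theorem dn1 (Q : DP K QBar) (S : Finset (Pl K))
    (χ : Gal(QBar/K) →* Multiplicative (ZMod 3)) : 1 ≤ Dn Q S χ :=
  Finset.prod_pos fun v _ => lt_trans zero_lt_one (one_lt_nm v)

/-- the number of characters -/
theorem cnt3 {S : Finset (Pl K)} {Q : DP K QBar} (hm : MS3 S Q) (hL : LF3 S Q) :
    ∃ C : ℝ, 1 ≤ C ∧ ∀ R : ℝ, 1 ≤ R →
      ∀ T : Finset (Gal(QBar/K) →* Multiplicative (ZMod 3)),
        (∀ χ ∈ T, χ ∈ H38.MT.Ch K ∧ H38.MT.cf Q S χ ≤ R) → (T.card : ℝ) ≤ C * R := by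
  obtain ⟨T₀, hT₀, hT₁⟩ := hL
  have key : ∀ χ₁ : Gal(QBar/K) →* Multiplicative (ZMod 3), χ₁ ∈ T₀ → ∃ C : ℝ, 0 ≤ C ∧
      ∀ R : ℝ, 1 ≤ R → (H38.MT.CX Q S χ₁ R).Finite ∧
        ((H38.MT.CX Q S χ₁ R).ncard : ℝ) ≤ C * R := by
    intro χ₁ h1
    obtain ⟨κ, m, C, A, δ, hκ, hC, hδ0, hδ1, -, -, h⟩ := hm χ₁ (hT₀ χ₁ h1)
    refine ⟨κ + C, by linarith, fun R hR => ?_⟩
    obtain ⟨hfin, h2⟩ := h ∅ (fun l hl => absurd hl (Finset.notMem_empty l)) R hR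
    refine ⟨hfin, ?_⟩
    rw [finsum_mem_eq_finite_toFinset_sum _ hfin] at h2
    have h3 : nr (∅ : Finset (Pl K)) = 1 := by
      unfold nr
      exact Finset.prod_empty
    simp only [Finset.prod_empty, Finset.sum_const, nsmul_eq_mul, mul_one, h3, one_pow] at h2
    rw [← Set.ncard_eq_toFinset_card _ hfin] at h2
    have h4 := (abs_le.1 h2).2
    have h5 : R ^ (1 - δ) ≤ R := by
      calc R ^ (1 - δ) ≤ R ^ (1 : ℝ) := Real.rpow_le_rpow_of_exponent_le hR (by linarith)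
        _ = R := Real.rpow_one R
    have h6 : C * R ^ (1 - δ) ≤ C * R := mul_le_mul_of_nonneg_left h5 (by linarith)
    linarith
  choose! C hC0 hC using key
  refine ⟨1 + ∑ χ₁ ∈ T₀, C χ₁, ?_, fun R hR T hT => ?_⟩
  · have := Finset.sum_nonneg hC0
    linarith
  · have hsub : T ⊆ T₀.biUnion fun χ₁ => T.filter fun χ => Teq S Q χ χ₁ := by
      intro χ hχ
      obtain ⟨χ₁, h1, h2⟩ := hT₁ χ (hT χ hχ).1
      rw [Finset.mem_biUnion]
      exact ⟨χ₁, h1, Finset.mem_filter.2 ⟨hχ, h2⟩⟩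
    have h1 : T.card ≤ ∑ χ₁ ∈ T₀, (T.filter fun χ => Teq S Q χ χ₁).card :=
      (Finset.card_le_card hsub).trans Finset.card_biUnion_le
    have h2 : (T.card : ℝ) ≤ ∑ χ₁ ∈ T₀, ((T.filter fun χ => Teq S Q χ χ₁).card : ℝ) := by
      exact_mod_cast h1
    have h3 : ∑ χ₁ ∈ T₀, ((T.filter fun χ => Teq S Q χ χ₁).card : ℝ) ≤ ∑ χ₁ ∈ T₀, C χ₁ * R := by
      refine Finset.sum_le_sum fun χ₁ h4 => ?_
      obtain ⟨hfin, h5⟩ := hC χ₁ h4 R hR
      refine le_trans ?_ h5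
      have h6 : (T.filter fun χ => Teq S Q χ χ₁).card ≤ (H38.MT.CX Q S χ₁ R).ncard := by
        rw [← Set.ncard_coe_finset]
        refine Set.ncard_le_ncard ?_ hfin
        intro χ hχ
        rw [Finset.mem_coe, Finset.mem_filter] at hχ
        exact ⟨(hT χ hχ.1).1, hχ.2, (hT χ hχ.1).2⟩
      exact_mod_cast h6
    rw [← Finset.sum_mul] at h3
    have h7 : (0 : ℝ) ≤ R := by linarith
    nlinarith

/-- the mean value over the characters -/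
theorem mab {S : Finset (Pl K)} {Q : DP K QBar} (hL : LF3 S Q)
    (Am : (Gal(QBar/K) →* Multiplicative (ZMod 3)) → ℝ) (h5 : LA5 S Q Am)
    (hP : ∀ R : ℝ, {χ | χ ∈ H38.MT.Ch K ∧ H38.MT.cf Q S χ ≤ R}.Finite)
    (W : (Gal(QBar/K) →* Multiplicative (ZMod 3)) → ℝ) (hW0 : ∀ χ, 0 ≤ W χ)
    (hW : ∀ χ ∈ H38.MT.Ch K, ∀ χ' ∈ H38.MT.Ch K, Teq S Q χ χ' → W χ = W χ') :
    ∃ a : ℝ, 0 ≤ a ∧ ((∃ χ ∈ H38.MT.Ch K, 0 < W χ) → 0 < a) ∧ Tendsto (fun R : ℝ =>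
      (∑ χ ∈ (hP R).toFinset, W χ * Am χ) / R) atTop (𝓝 a) := by
  obtain ⟨Xf, hXf, hX2⟩ := hL
  let st : Setoid (Gal(QBar/K) →* Multiplicative (ZMod 3)) :=
    { r := Teq S Q
      iseqv := ⟨fun _ _ _ _ _ => rfl, fun h v hv σ hσ => (h v hv σ hσ).symm,
        fun h1 h2 v hv σ hσ => (h1 v hv σ hσ).trans (h2 v hv σ hσ)⟩ }
  have hst : ∀ χ χ' : Gal(QBar/K) →* Multiplicative (ZMod 3),
      Quotient.mk st χ = Quotient.mk st χ' ↔ Teq S Q χ χ' := fun χ χ' => Quotient.eq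
  have key : ∀ c ∈ Xf.image (Quotient.mk st), ∃ a : ℝ, 0 ≤ a ∧
      ((∃ χ ∈ H38.MT.Ch K, Quotient.mk st χ = c ∧ 0 < W χ) → 0 < a) ∧ Tendsto (fun R : ℝ =>
      (∑ χ ∈ (hP R).toFinset with Quotient.mk st χ = c, W χ * Am χ) / R) atTop (𝓝 a) := by
    intro c hc
    obtain ⟨χ₁, h1, rfl⟩ := Finset.mem_image.1 hc
    obtain ⟨a, ha, hlim⟩ := h5 χ₁ (hXf χ₁ h1)
    refine ⟨W χ₁ * a, mul_nonneg (hW0 χ₁) ha.le, ?_, (hlim.const_mul (W χ₁)).congr fun R => ?_⟩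
    · rintro ⟨χ, hχ, h2, h3⟩
      rw [hW χ hχ χ₁ (hXf χ₁ h1) ((hst _ _).1 h2)] at h3
      positivity
    · have hfin : (H38.MT.CX Q S χ₁ R).Finite := (hP R).subset fun χ hχ => ⟨hχ.1, hχ.2.2⟩
      rw [finsum_mem_eq_finite_toFinset_sum _ hfin, ← mul_div_assoc, Finset.mul_sum]
      congr 1
      have hset : hfin.toFinset =
          (hP R).toFinset.filter (fun χ => Quotient.mk st χ = Quotient.mk st χ₁) := by
        ext χ
        rw [Set.Finite.mem_toFinset, Finset.mem_filter, Set.Finite.mem_toFinset, hst]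
        exact ⟨fun h => ⟨⟨h.1, h.2.2⟩, h.2.1⟩, fun h => ⟨h.1.1, h.2, h.1.2⟩⟩
      rw [hset]
      refine Finset.sum_congr rfl fun χ hχ => ?_
      rw [Finset.mem_filter, Set.Finite.mem_toFinset, hst] at hχ
      rw [hW χ hχ.1.1 χ₁ (hXf χ₁ h1) hχ.2]
  choose! L hL0 hL1 hL2 using key
  refine ⟨∑ c ∈ Xf.image (Quotient.mk st), L c, Finset.sum_nonneg hL0, ?_,
    (tendsto_finsetSum _ hL2).congr fun R => ?_⟩
  · rintro ⟨χ, hχ, hpos⟩
    obtain ⟨χ', h1, h2⟩ := hX2 χ hχ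
    refine Finset.sum_pos' hL0 ⟨Quotient.mk st χ', Finset.mem_image_of_mem _ h1, ?_⟩
    exact hL1 _ (Finset.mem_image_of_mem _ h1) ⟨χ, hχ, (hst _ _).2 h2, hpos⟩
  · rw [← Finset.sum_div]
    congr 1
    refine Finset.sum_fiberwise_of_maps_to (fun χ hχ => ?_) _
    rw [Set.Finite.mem_toFinset] at hχ
    obtain ⟨χ', h1, h2⟩ := hX2 χ hχ.1
    rw [Finset.mem_image]
    exact ⟨χ', h1, ((hst _ _).2 h2).symm⟩

end H67.AQ
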