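import Pool.Agent.H67.AQ.Defs
import Pool.Agent.H48.T3.Bet
import Pool.Agent.H38.ML.SpecBridge

/-!
# AQ (MP_b39724_nt): `beta_K(A_4) = 2` for every number field `K` without the cube roots of unity (complete, proved)
-/

set_option autoImplicit false

open H38.ML H48.T3

noncomputable section

namespace H67.AQ

variable {K : IntermediateField ℚ QBar}

/-- an automorphism which moves the cube roots of unity -/
theorem ex_sig (hK : No3 K) : ∃ (σ : Gal(QBar/K)) (a : ℕ), a % 3 = 2 ∧
    ∀ ζ : QBar, ζ ^ 12 = 1 → σ ζ = ζ ^ a := by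
  obtain ⟨ζ, hζ⟩ := HasEnoughRootsOfUnity.exists_primitiveRoot QBar 12
  have hω : IsPrimitiveRoot (ζ ^ 4) 3 := hζ.pow (by norm_num) (by norm_num)
  have h1 : ∃ σ : Gal(QBar/K), σ (ζ ^ 4) ≠ ζ ^ 4 := by
    by_contra h
    push Not at h
    have h2 : ζ ^ 4 ∈ (⊥ : IntermediateField K QBar) :=
      (InfiniteGalois.mem_bot_iff_fixed _).2 h
    rw [IntermediateField.mem_bot] at h2
    obtain ⟨w, hw⟩ := h2
    rw [← hw] at hω
    exact hK w (IsPrimitiveRoot.of_map_of_injective (f := algebraMap K QBar) hω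
      (algebraMap K QBar).injective)
  obtain ⟨σ, hσ⟩ := h1
  have h2 : (σ ζ) ^ 12 = 1 := by rw [← map_pow, hζ.pow_eq_one, map_one]
  obtain ⟨a, -, ha⟩ := hζ.eq_pow_of_pow_eq_one h2
  refine ⟨σ, a, ?_, ?_⟩
  · have h3 : σ (ζ ^ 4) = (ζ ^ 4) ^ (a % 3) := by
      have h4 : σ (ζ ^ 4) = (ζ ^ 4) ^ a := by
        rw [map_pow, ← ha, ← pow_mul, ← pow_mul, mul_comm]
      rw [h4]
      conv_lhs => rw [← Nat.div_add_mod a 3, pow_add, pow_mul, hω.pow_eq_one, one_pow, one_mul]
    have h5 : a % 3 < 3 := Nat.mod_lt _ (by norm_num)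
    have h6 : a % 3 ≠ 0 := by
      intro h
      rw [h, pow_zero] at h3
      have h7 : ζ ^ 4 = 1 := σ.injective (h3.trans (map_one σ).symm)
      exact hω.ne_one (by norm_num) h7
    have h7 : a % 3 ≠ 1 := by
      intro h
      rw [h, pow_one] at h3
      exact hσ h3
    omega
  · intro z hz
    obtain ⟨i, -, hi⟩ := hζ.eq_pow_of_pow_eq_one hz
    rw [← hi, map_pow, ← ha, ← pow_mul, ← pow_mul, mul_comm]

theorem beta_no3 (hK : No3 K) : Spec.betaAll K QBar (alternatingGroup (Fin 4)) = 2 := by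
  have hc : Nat.card (alternatingGroup (Fin 4)) = 12 := by
    have := nat_card_alternatingGroup (α := Fin 4)
    rw [this, Nat.card_eq_fintype_card, Fintype.card_fin]
    rfl
  let T := {g : alternatingGroup (Fin 4) //
    g ≠ 1 ∧ Spec.ind (g : Equiv.Perm (Fin 4)) = Spec.indG (alternatingGroup (Fin 4))}
  let R : T → T → Prop := fun g h => Spec.KConj K QBar (alternatingGroup (Fin 4)) g.1 h.1
  have hne : ∀ g : T, ((g.1 : alternatingGroup (Fin 4)) : Equiv.Perm (Fin 4)) ≠ 1 :=
    fun g h => g.2.1 (Subtype.ext h)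
  have hsg : ∀ g : T, Equiv.Perm.sign ((g.1 : alternatingGroup (Fin 4)) : Equiv.Perm (Fin 4)) = 1 :=
    fun g => Equiv.Perm.mem_alternatingGroup.1 g.1.2
  have hmk : ∀ g : Equiv.Perm (Fin 4), (hg : g ∈ alternatingGroup (Fin 4)) → g ≠ 1 →
      ∃ t : T, ((t.1 : alternatingGroup (Fin 4)) : Equiv.Perm (Fin 4)) = g := by
    intro g hg h1
    exact ⟨⟨⟨g, hg⟩, fun h => h1 (congrArg Subtype.val h), by
      rw [indG_A4]; exact ind_A4 g hg h1⟩, rfl⟩
  have hinv : ∀ g h : T, R g h →
      (((g.1 : Equiv.Perm (Fin 4)) ^ 2 = 1) ↔ ((h.1 : Equiv.Perm (Fin 4)) ^ 2 = 1)) := by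
    rintro g h ⟨σ, a, x, h1, h2⟩
    rw [hc] at h1
    have h4 : (-1 : QBar) = (-1) ^ a := by
      have := h1 (-1) (by norm_num)
      rwa [map_neg, map_one] at this
    have h6 : a % 2 = 1 := by
      rcases Nat.mod_two_eq_zero_or_one a with h | h
      · exfalso
        rw [Even.neg_one_pow (Nat.even_iff.2 h)] at h4
        have : (2 : QBar) = 0 := by linear_combination -h4
        exact two_ne_zero this
      · exact h
    have h8 := congrArg (Subtype.val : alternatingGroup (Fin 4) → Equiv.Perm (Fin 4)) h2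
    rw [Subgroup.coe_mul, Subgroup.coe_mul, Subgroup.coe_pow, Subgroup.coe_inv] at h8
    have h9 : (h.1 : Equiv.Perm (Fin 4)) ^ 2 = 1 ↔ ((g.1 : Equiv.Perm (Fin 4)) ^ a) ^ 2 = 1 := by
      rw [h8, conj_pow]
      constructor
      · intro h10
        rw [mul_inv_eq_one, mul_eq_left] at h10
        exact h10
      · intro h10
        rw [h10, mul_one, mul_inv_cancel]
    rw [h9]
    constructor
    · intro h10
      rw [← pow_mul, mul_comm, pow_mul, h10, one_pow]
    · intro h10
      rcases cj_cases g.1 (hsg g) (hne g) with h11 | h11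
      · exact h11.1
      · exfalso
        have h12 : (g.1 : Equiv.Perm (Fin 4)) ^ (a * 2) = 1 := by rw [pow_mul]; exact h10
        -- order 3, so `3 ∣ a`; then `σ` is not injective on the cube roots of unity
        have h13 : orderOf (g.1 : Equiv.Perm (Fin 4)) = 3 :=
          orderOf_eq_prime h11.1 (hne g)
        have h14 : 3 ∣ a * 2 := by
          rw [← h13]
          exact orderOf_dvd_of_pow_eq_one h12
        have h15 : 3 ∣ a := (Nat.Coprime.dvd_mul_right (by norm_num)).1 h14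
        obtain ⟨b, hb⟩ := h15
        obtain ⟨ζ, hζ⟩ := HasEnoughRootsOfUnity.exists_primitiveRoot QBar 3
        have h16 := h1 ζ (by rw [show (12 : ℕ) = 3 * 4 from rfl, pow_mul, hζ.pow_eq_one, one_pow])
        rw [hb, pow_mul, hζ.pow_eq_one, one_pow] at h16
        exact hζ.ne_one (by norm_num) (σ.injective (h16.trans (map_one σ).symm))
  obtain ⟨σ, a, ha, hσ⟩ := ex_sig hK
  have hcj : ∀ g h : T, Cj g.1 h.1 → R g h := by
    rintro g h ⟨x, hx, h1⟩
    refine ⟨1, 1, ⟨x, Equiv.Perm.mem_alternatingGroup.2 hx⟩, fun ζ _ => by rw [pow_one]; rfl, ?_⟩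
    apply Subtype.ext
    rw [Subgroup.coe_mul, Subgroup.coe_mul, Subgroup.coe_pow, Subgroup.coe_inv, pow_one]
    exact (mul_inv_eq_of_eq_mul h1).symm
  have hcj2 : ∀ g h : T, (g.1 : Equiv.Perm (Fin 4)) ^ 3 = 1 →
      Cj ((g.1 : Equiv.Perm (Fin 4))⁻¹) h.1 → R g h := by
    rintro g h h3 ⟨x, hx, h1⟩
    refine ⟨σ, a, ⟨x, Equiv.Perm.mem_alternatingGroup.2 hx⟩, fun ζ hζ => ?_, ?_⟩
    · rw [hc] at hζ
      exact hσ ζ hζ
    · apply Subtype.ext
      rw [Subgroup.coe_mul, Subgroup.coe_mul, Subgroup.coe_pow, Subgroup.coe_inv]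
      have h4 : (g.1 : Equiv.Perm (Fin 4)) ^ a = (g.1 : Equiv.Perm (Fin 4))⁻¹ := by
        rw [← Nat.div_add_mod a 3, pow_add, pow_mul, h3, one_pow, one_mul, ha, eq_inv_iff_mul_eq_one,
          ← pow_succ, h3]
      rw [h4]
      exact (mul_inv_eq_of_eq_mul h1).symm
  let F : Quot R → Prop := Quot.lift (fun g => (g.1 : Equiv.Perm (Fin 4)) ^ 2 = 1)
    fun g h hgh => propext (hinv g h hgh)
  have hF : Function.Bijective F := by
    constructor
    · intro a' b'
      obtain ⟨g, rfl⟩ := Quot.exists_rep a'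
      obtain ⟨h, rfl⟩ := Quot.exists_rep b'
      intro hab
      have hab' : ((g.1 : Equiv.Perm (Fin 4)) ^ 2 = 1) ↔ ((h.1 : Equiv.Perm (Fin 4)) ^ 2 = 1) :=
        iff_of_eq hab
      have h23 : ∀ t : Equiv.Perm (Fin 4), t ^ 2 = 1 → t ^ 3 = 1 → t = 1 := by
        intro t h2 h3
        rw [pow_succ, h2, one_mul] at h3
        exact h3
      rcases cj_cases g.1 (hsg g) (hne g) with h1 | h1
      · rcases cj_cases h.1 (hsg h) (hne h) with h2 | h2
        · exact Quot.sound (hcj g h (cj_trans (cj_symm h1.2) h2.2))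
        · exact absurd (h23 _ (hab'.1 h1.1) h2.1) (hne h)
      · rcases cj_cases h.1 (hsg h) (hne h) with h2 | h2
        · exact absurd (h23 _ (hab'.2 h2.1) h1.1) (hne g)
        · have hiv : ∀ {s t : Equiv.Perm (Fin 4)}, Cj s t → Cj s⁻¹ t⁻¹ := by
            rintro s t ⟨x, hx, h3⟩
            refine ⟨x, hx, ?_⟩
            rw [mul_inv_eq_iff_eq_mul, mul_assoc, h3, inv_mul_cancel_left]
          rcases h1.2 with h3 | h3
          · rcases h2.2 with h4 | h4
            · exact Quot.sound (hcj g h (cj_trans (cj_symm h3) h4))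
            · exact Quot.sound (hcj2 g h h1.1 (cj_trans (cj_symm (hiv h3)) h4))
          · rcases h2.2 with h4 | h4
            · have h5 := hiv h3
              rw [inv_inv] at h5
              exact Quot.sound (hcj2 g h h1.1 (cj_trans (cj_symm h5) h4))
            · exact Quot.sound (hcj g h (cj_trans (cj_symm h3) h4))
    · intro p
      by_cases hp : p
      · obtain ⟨t, ht⟩ := hmk bd bd_mem (by decide)
        refine ⟨Quot.mk _ t, ?_⟩
        change ((t.1 : Equiv.Perm (Fin 4)) ^ 2 = 1) = p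
        rw [ht, eq_true hp]
        exact eq_true (by decide)
      · obtain ⟨t, ht⟩ := hmk bc bc_mem (by decide)
        refine ⟨Quot.mk _ t, ?_⟩
        change ((t.1 : Equiv.Perm (Fin 4)) ^ 2 = 1) = p
        rw [ht, eq_false hp]
        exact eq_false (by decide)
  change Nat.card (Quot R) = 2
  rw [Nat.card_congr (Equiv.ofBijective F hF), Nat.card_eq_fintype_card, Fintype.card_prop]

end H67.AQ
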