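import Pool.Agent.H67.AQ.Defs

/-!
# AQ (MP_b39724_nt): over every number field there is a surjective character of order 3 (complete, proved)

In the cyclotomic field of the roots of unity of order `3 ^ (k + 1)`, with `3 ^ k > [K : ℚ]`.
-/

set_option autoImplicit false

open scoped NumberField Classical
open H38.ML

noncomputable section

namespace H67.AQ

theorem cyc3 (A : Type) [Group A] [Finite A] [IsCyclic A] (h : 3 ∣ Nat.card A) :
    ∃ f : A →* Multiplicative (ZMod 3), Function.Surjective f := by
  let e : Multiplicative (ZMod (Nat.card A)) ≃* A := zmodCyclicMulEquiv (inferInstance : IsCyclic A)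
  let g : ZMod (Nat.card A) →+ ZMod 3 := (ZMod.castHom h (ZMod 3)).toAddMonoidHom
  have hg : Function.Surjective g := ZMod.ringHom_surjective (ZMod.castHom h (ZMod 3))
  refine ⟨(AddMonoidHom.toMultiplicative g).comp e.symm.toMonoidHom, ?_⟩
  intro y
  obtain ⟨x, hx⟩ := hg (Multiplicative.toAdd y)
  refine ⟨e (Multiplicative.ofAdd x), ?_⟩
  change AddMonoidHom.toMultiplicative g (e.symm (e (Multiplicative.ofAdd x))) = y
  rw [MulEquiv.symm_apply_apply]
  change Multiplicative.ofAdd (g x) = y
  rw [hx]
  rfl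

theorem ch_ne (K : IntermediateField ℚ QBar) [NumberField K] : (H38.MT.Ch K).Nonempty := by
  obtain ⟨k, hk⟩ : ∃ k : ℕ, Module.finrank ℚ K < 3 ^ k :=
    ⟨_, Nat.lt_pow_self (by norm_num : 1 < 3)⟩
  obtain ⟨ζ, hζ⟩ := HasEnoughRootsOfUnity.exists_primitiveRoot QBar (3 ^ (k + 1))
  let E : IntermediateField K QBar := IntermediateField.adjoin K {ζ}
  haveI hcyc : IsCyclotomicExtension {3 ^ (k + 1)} K E :=
    hζ.intermediateField_adjoin_isCyclotomicExtension K
  haveI hgal : IsGalois K E := IsCyclotomicExtension.isGalois {3 ^ (k + 1)} K E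
  haveI hfd : FiniteDimensional K E := IsCyclotomicExtension.finiteDimensional {3 ^ (k + 1)} K E
  have hζE : ζ ∈ E := IntermediateField.mem_adjoin_simple_self K ζ
  have hz : IsPrimitiveRoot (⟨ζ, hζE⟩ : E) (3 ^ (k + 1)) :=
    IsPrimitiveRoot.of_map_of_injective (f := algebraMap E QBar) hζ (algebraMap E QBar).injective
  have hinj : Function.Injective (hz.autToPow K) := hz.autToPow_injective K
  haveI : IsCyclic (ZMod (3 ^ (k + 1)))ˣ := ZMod.isCyclic_units_of_prime_pow 3 Nat.prime_three (by norm_num) _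
  haveI : IsCyclic Gal(E/K) := isCyclic_of_injective (hz.autToPow K) hinj
  -- the degree
  have hcard : Nat.card Gal(E/K) = Module.finrank K E := IsGalois.card_aut_eq_finrank K E
  haveI : FiniteDimensional ℚ E := FiniteDimensional.trans ℚ K E
  have hmul : Module.finrank ℚ K * Module.finrank K E = Module.finrank ℚ E :=
    Module.finrank_mul_finrank ℚ K E
  have hint : IsIntegral ℚ (⟨ζ, hζE⟩ : E) := Algebra.IsIntegral.isIntegral _
  have hdeg := minpoly.degree_dvd hint
  rw [← Polynomial.cyclotomic_eq_minpoly_rat hz (by positivity), Polynomial.natDegree_cyclotomic,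
    Nat.totient_prime_pow_succ Nat.prime_three] at hdeg
  have h3 : 3 ∣ Nat.card Gal(E/K) := by
    rw [hcard]
    by_contra h
    have h4 : Nat.Coprime (3 ^ k) (Module.finrank K E) :=
      Nat.Coprime.pow_left k ((Nat.Prime.coprime_iff_not_dvd Nat.prime_three).2 h)
    have h5 : 3 ^ k ∣ Module.finrank ℚ K * Module.finrank K E := by
      rw [hmul]
      exact (Dvd.intro _ rfl).trans hdeg
    have h6 := h4.dvd_of_dvd_mul_right h5
    have h7 := Nat.le_of_dvd Module.finrank_pos h6
    omega
  obtain ⟨f, hf⟩ := cyc3 Gal(E/K) h3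
  haveI : Normal K QBar := inferInstance
  refine ⟨f.comp (AlgEquiv.restrictNormalHom E), ⟨E, hfd, ?_⟩, ?_⟩
  · intro σ hσ
    rw [MonoidHom.mem_ker, MonoidHom.comp_apply]
    have h8 : AlgEquiv.restrictNormalHom E σ = 1 := by
      rw [IntermediateField.mem_fixingSubgroup_iff] at hσ
      ext x
      rw [AlgEquiv.restrictNormalHom_apply]
      exact hσ x x.2
    rw [h8, map_one]
  · exact hf.comp (AlgEquiv.restrictNormalHom_surjective QBar)

end H67.AQ
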