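import Pool.Agent.H67.AQ.Fnb
import Pool.Agent.H67.AQ.Bt3
import Pool.Agent.H67.AQ.Che
import Pool.Agent.H48.AQ.Fs

/-!
# AQ (MP_b39724_nt), case B (no cube roots of unity in `K`): the theorem from the chapters W, LI, M3, LA (complete, proved)
-/

set_option autoImplicit false

open scoped NumberField Classical
open IsDedekindDomain H38.ML H63.MA H48.KV Filter Topology
open H48.T3 hiding Ch

noncomputable section

namespace H67.AQ

theorem a4b (K : IntermediateField ℚ QBar) [NumberField K] (hK : No3 K)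
    (hW : ∀ (S : Finset (Pl K)) (Q : DP K QBar), WLog Q S 1)
    (hLI : ∀ S : Finset (Pl K), H57.LI.LI1 K QBar (mS S) ∧ H57.LI.LI2 K QBar (mS S))
    (hms : ∃ S₀ : Finset (Pl K), ∀ S, S₀ ⊆ S → ∀ Q : DP K QBar, MS3 S Q)
    (hla : ∀ (S : Finset (Pl K)) (Q : DP K QBar), (∀ v : Pl K, Above 3 v → v ∈ S) →
      ∃ Am : (Gal(QBar/K) →* Multiplicative (ZMod 3)) → ℝ,
        LA3 S Q Am ∧ LA4 S Q Am ∧ (MS3 S Q → LA5 S Q Am)) :
    Spec.indG (alternatingGroup (Fin 4)) = 2 ∧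
    Spec.betaAll K QBar (alternatingGroup (Fin 4)) = 2 ∧
    (∀ B : ℝ, Spec.nK K QBar (alternatingGroup (Fin 4)) B ≠ ⊤) ∧
    ∃ C : ℝ, 0 < C ∧ Tendsto
      (fun B : ℝ => ((Spec.nK K QBar (alternatingGroup (Fin 4)) B).toNat : ℝ) /
        (B ^ (1 / (2 : ℝ)) * Real.log B)) atTop (𝓝 C) := by
  obtain ⟨k, hk⟩ := H38.EN.akv
  obtain ⟨S₀, hS₀⟩ := hms
  obtain ⟨S, hS⟩ : ∃ S : Finset (Pl K), S = S₀ ∪ ((finite_above (K := K) two_ne_zero).toFinset ∪
    (finite_above (K := K) three_ne_zero).toFinset) := ⟨_, rfl⟩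
  have hS2 : ∀ v : Pl K, Above 2 v → v ∈ S := fun v hv => by
    rw [hS]
    exact Finset.mem_union_right _ (Finset.mem_union_left _
      ((finite_above (K := K) two_ne_zero).mem_toFinset.2 hv))
  have hS3 : ∀ v : Pl K, Above 3 v → v ∈ S := fun v hv => by
    rw [hS]
    exact Finset.mem_union_right _ (Finset.mem_union_right _
      ((finite_above (K := K) three_ne_zero).mem_toFinset.2 hv))
  have hSS : S₀ ⊆ S := by
    rw [hS]
    exact Finset.subset_union_left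
  obtain ⟨Q⟩ := exists_DP K QBar
  have hm := hS₀ S hSS Q
  obtain ⟨Am, h3, h4, h5⟩ := hla S Q hS3
  obtain ⟨C, hC, k', hk', hlim⟩ := fnb k hk (hW S Q) (hLI S).1 (hLI S).2
    (H48.AQ.fbs k hk S hS2 Q) hm (H48.AQ.lf3 S Q) hS2 hS3 Am h3 h4 (h5 hm) (ch_ne K)
  refine ⟨H48.T3.indG_A4, beta_no3 hK, fun B h => ENat.natCast_ne_top (k' B) ((hk' B).symm.trans h),
    C, hC, hlim.congr fun B => ?_⟩
  have h : (Spec.nK K QBar (alternatingGroup (Fin 4)) B).toNat = k' B :=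
    (congrArg ENat.toNat (hk' B)).trans (ENat.toNat_natCast _)
  rw [h]

end H67.AQ
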