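import Pool.Agent.H67.AQ.Defs
import Pool.Agent.H38.MT.BA
import Pool.Agent.H48.KV.Dsc
import Pool.Agent.H38.AS.QNk
import Pool.Agent.H36.QA.ADefs

/-!
# AQ (MP_b39724_nt): the discriminant of the cubic field of a character, over every number field (complete, proved)

Copy of H38/EN/Ddx.lean; the finiteness of the number of types (`LF3`) is a hypothesis.
-/

set_option autoImplicit false

open scoped NumberField Classical
open IsDedekindDomain H38.ML H63.MA H48.KV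
open H48.T3 hiding Ch

noncomputable section

namespace H67.AQ

variable {K : IntermediateField ℚ QBar} [NumberField K]

/-- the translation of `Fin 3` -/
private def dtr : Multiplicative (ZMod 3) →* Equiv.Perm (Fin 3) where
  toFun x := Equiv.addLeft (Multiplicative.toAdd x : Fin 3)
  map_one' := by
    refine Equiv.ext fun i => ?_
    exact zero_add i
  map_mul' x y := by
    refine Equiv.ext fun i => ?_
    exact add_assoc (Multiplicative.toAdd x : Fin 3) (Multiplicative.toAdd y : Fin 3) i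

private theorem dtr_ap (x : Multiplicative (ZMod 3)) (i : Fin 3) :
    dtr x i = (Multiplicative.toAdd x : Fin 3) + i := rfl

private theorem dtr_fix {x : Multiplicative (ZMod 3)} {i : Fin 3} (h : dtr x i = i) : x = 1 := by
  rw [dtr_ap] at h
  have h2 : (Multiplicative.toAdd x : Fin 3) = 0 := by
    have := congrArg (fun z => z - i) h
    simpa using this
  exact congrArg Multiplicative.ofAdd h2

private theorem dtr_inj : Function.Injective dtr := by
  rw [injective_iff_map_eq_one]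
  intro x hx
  have h : dtr x 0 = 0 := by rw [hx]; rfl
  exact dtr_fix h

private abbrev dG : Subgroup (Equiv.Perm (Fin 3)) := dtr.range

private theorem dG_tr : MulAction.IsPretransitive dG (Fin 3) := by
  refine ⟨fun i j => ⟨⟨dtr (Multiplicative.ofAdd (j - i : Fin 3)), ⟨_, rfl⟩⟩, ?_⟩⟩
  show dtr (Multiplicative.ofAdd (j - i : Fin 3)) i = j
  rw [dtr_ap]
  show (j - i : Fin 3) + i = j
  exact sub_add_cancel j i

private theorem dG_card : Nat.card dG = 3 := by
  rw [← Nat.card_congr (MonoidHom.ofInjective dtr_inj).toEquiv]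
  simp

private theorem dG_sub {J : Subgroup (Equiv.Perm (Fin 3))} (hJ : J ≤ dG) (h : ∃ g ∈ J, g ≠ 1) : J = dG := by
  have h1 : Nat.card J ∣ 3 := by
    have h0 := Subgroup.card_dvd_of_le hJ
    rwa [dG_card] at h0
  rcases (Nat.dvd_prime Nat.prime_three).1 h1 with h2 | h2
  · exfalso
    obtain ⟨g, hg, hg1⟩ := h
    rw [Subgroup.card_eq_one] at h2
    rw [h2, Subgroup.mem_bot] at hg
    exact hg1 hg
  · refine Subgroup.eq_of_le_of_card_ge hJ ?_
    rw [h2, dG_card]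

private theorem dG_ind : H38.ML.indG dG = 3 - orbs dG := by
  have hz : ∀ g ∈ dG, g ≠ 1 → H38.ML.ind g = 3 - orbs dG := by
    intro g hg hg1
    unfold H38.ML.ind
    rw [dG_sub (J := Subgroup.zpowers g) (by rwa [Subgroup.zpowers_le]) ⟨g, Subgroup.mem_zpowers g, hg1⟩]
  have hset : {k | ∃ g ∈ dG, g ≠ 1 ∧ H38.ML.ind g = k} = {3 - orbs dG} := by
    ext k
    constructor
    · rintro ⟨g, hg, hg1, rfl⟩
      exact hz g hg hg1
    · intro hk
      have hk' : k = 3 - orbs dG := hk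
      subst hk'
      refine ⟨dtr (Multiplicative.ofAdd (1 : ZMod 3)), ⟨_, rfl⟩, ?_, ?_⟩
      · intro h
        have h3 := dtr_inj (h.trans (map_one dtr).symm)
        exact absurd (congrArg Multiplicative.toAdd h3) (by decide)
      · refine hz _ ⟨_, rfl⟩ ?_
        intro h
        have h3 := dtr_inj (h.trans (map_one dtr).symm)
        exact absurd (congrArg Multiplicative.toAdd h3) (by decide)
  unfold H38.ML.indG
  rw [hset, csInf_singleton]

/-- the homomorphism to permutations -/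
private def dph (χ : Gal(QBar/K) →* Multiplicative (ZMod 3)) : Gal(QBar/K) →* dG :=
  dtr.rangeRestrict.comp χ

private theorem dph_one (χ : Gal(QBar/K) →* Multiplicative (ZMod 3)) (σ : Gal(QBar/K)) :
    dph χ σ = 1 ↔ χ σ = 1 := by
  constructor
  · intro h
    have h1 : dtr (χ σ) = 1 := congrArg Subtype.val h
    exact dtr_inj (h1.trans (map_one dtr).symm)
  · intro h
    show dtr.rangeRestrict (χ σ) = 1
    rw [h, map_one]

private theorem dph_ft {χ : Gal(QBar/K) →* Multiplicative (ZMod 3)} (h : FT χ) : FT (dph χ) := by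
  obtain ⟨E, hE, hle⟩ := h
  refine ⟨E, hE, fun σ hσ => ?_⟩
  rw [MonoidHom.mem_ker, dph_one]
  exact hle hσ

private theorem dph_fx (χ : Gal(QBar/K) →* Multiplicative (ZMod 3)) : fieldOf (0 : Fin 3) (dph χ) = FX χ := by
  ext x
  rw [H38.AS.qn_mem, FX, IntermediateField.mem_fixedField_iff]
  constructor
  · intro h σ hσ
    refine h σ ?_
    have h1 : dph χ σ = 1 := (dph_one χ σ).2 hσ
    rw [h1, one_smul]
  · intro h σ hσ
    refine h σ ?_
    have h1 : dtr (χ σ) 0 = 0 := hσ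
    exact dtr_fix h1

theorem ddg (Q : DP K QBar) (S : Finset (Pl K)) (hS2 : ∀ v : Pl K, Above 2 v → v ∈ S)
    (hS3 : ∀ v : Pl K, Above 3 v → v ∈ S) (hL : LF3 S Q) :
    ∃ (C : ℝ) (A : ℕ), 1 ≤ C ∧ ∀ χ ∈ H38.MT.Ch K, ∀ (F : IntermediateField K QBar)
      (_ : NumberField F), F = FX χ → H36.QA.dd F ≤ C * H38.MT.cf Q S χ ^ A := by
  have hin : ∀ v : Pl K, (((3 : ℕ).factorial : ℕ) : 𝓞 K) ∈ v.asIdeal → v ∈ S := by
    intro v hv
    have e1 : (((3 : ℕ).factorial : ℕ) : 𝓞 K) = ((2 : ℕ) : 𝓞 K) * ((3 : ℕ) : 𝓞 K) := by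
      norm_num [Nat.factorial]
    rw [e1] at hv
    rcases v.isPrime.mem_or_mem hv with h4 | h4
    · exact hS2 v h4
    · exact hS3 v h4
  obtain ⟨d, hd1, hd2⟩ := dsc_form (by norm_num : 2 ≤ 3) dG dG_tr K S hin Q (0 : Fin 3)
  obtain ⟨Xf, hX1, hX2⟩ := hL
  set D : ℕ := ∑ χ ∈ Xf, d (dph χ) with hD
  refine ⟨max 1 ((D : ℝ) * ((NumberField.discr K).natAbs : ℝ) ^ 3), H38.ML.indG dG, le_max_left _ _, ?_⟩
  rintro χ ⟨hft, hsj⟩ F hF hFX
  have hsj' : Function.Surjective (dph χ) := (MonoidHom.rangeRestrict_surjective dtr).comp hsj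
  have hft' := dph_ft hft
  obtain ⟨hfd, hdeg, -, -⟩ := small_field dG dG_tr K (0 : Fin 3) (dph χ) hsj' hft'
  obtain ⟨hd0, hrel⟩ := hd1 (dph χ) hsj' hft' (by
    intro v _ hv
    obtain ⟨τ, hτ, hτ1⟩ := hv
    have hJ : (((Q.P v).inertia Gal(QBar/K)).map (dph χ)).map dG.subtype = dG := by
      refine dG_sub ?_ ⟨(dph χ τ : Equiv.Perm (Fin 3)), ?_, ?_⟩
      · rintro _ ⟨y, -, rfl⟩
        exact y.2
      · exact ⟨dph χ τ, ⟨τ, hτ, rfl⟩, rfl⟩
      · intro h
        exact hτ1 (Subtype.ext h)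
    rw [hJ, dG_ind])
  have hT : ∀ v, v ∈ H38.MT.rf Q S χ ↔ v ∉ S ∧ v ∈ H38.WM.Rm Q (dph χ) := by
    intro v
    rw [H38.MT.ba_mem Q S hft]
    refine and_congr_right fun _ => ?_
    constructor
    · rintro ⟨σ, hσ, h⟩
      exact ⟨σ, hσ, fun h1 => h ((dph_one χ σ).1 h1)⟩
    · rintro ⟨σ, hσ, h⟩
      exact ⟨σ, hσ, fun h1 => h ((dph_one χ σ).2 h1)⟩
  have hrel' := hrel _ hT
  have hdD : d (dph χ) ≤ D := by
    obtain ⟨χ', hχ', hte⟩ := hX2 χ ⟨hft, hsj⟩
    obtain ⟨hft2, hsj2⟩ := hX1 χ' hχ'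
    have h1 := hd2 (dph χ) (dph χ') hsj' hft' ((MonoidHom.rangeRestrict_surjective dtr).comp hsj2) (dph_ft hft2) (by
      intro v hv
      refine ⟨1, fun σ hσ => ?_⟩
      rw [one_mul, inv_one, mul_one]
      show dtr.rangeRestrict (χ σ) = dtr.rangeRestrict (χ' σ)
      rw [hte v hv σ hσ])
    rw [h1]
    exact Finset.single_le_sum (f := fun χ => d (dph χ)) (fun _ _ => Nat.zero_le _) hχ'
  have hFe : F = fieldOf (0 : Fin 3) (dph χ) := hFX.trans (dph_fx χ).symm
  subst hFe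
  have hrd : H38.ML.relDisc K (fieldOf (0 : Fin 3) (dph χ)) =
      Ideal.absNorm (differentIdeal (𝓞 K) (𝓞 (fieldOf (0 : Fin 3) (dph χ)))) := by
    unfold H38.ML.relDisc
    rw [dif_pos hF]
  have hdis := NumberField.natAbs_discr_eq_absNorm_differentIdeal_mul_natAbs_discr_pow K (𝓞 K)
    (fieldOf (0 : Fin 3) (dph χ)) (𝓞 (fieldOf (0 : Fin 3) (dph χ)))
  rw [← hrd, hrel', hdeg] at hdis
  have hdd : H36.QA.dd (fieldOf (0 : Fin 3) (dph χ)) =
      ((NumberField.discr (fieldOf (0 : Fin 3) (dph χ))).natAbs : ℝ) := by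
    unfold H36.QA.dd
    rw [Nat.cast_natAbs, Int.cast_abs]
  have hnr : ((∏ v ∈ H38.MT.rf Q S χ, nm v : ℕ) : ℝ) ≤ H38.MT.cf Q S χ := by
    unfold H38.MT.cf nr
    push_cast
    exact le_refl _
  have hn0 : (0 : ℝ) ≤ ((∏ v ∈ H38.MT.rf Q S χ, nm v : ℕ) : ℝ) := Nat.cast_nonneg _
  have hpw := pow_le_pow_left₀ hn0 hnr (H38.ML.indG dG)
  have hcf0 : (0 : ℝ) ≤ H38.MT.cf Q S χ ^ H38.ML.indG dG := le_trans (pow_nonneg hn0 _) hpw
  rw [hdd, hdis, Nat.cast_mul, Nat.cast_mul, Nat.cast_pow, Nat.cast_pow]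
  have hdDr : (d (dph χ) : ℝ) ≤ (D : ℝ) := by exact_mod_cast hdD
  have hdis0 : (0 : ℝ) ≤ ((NumberField.discr K).natAbs : ℝ) ^ 3 := by positivity
  calc (d (dph χ) : ℝ) * ((∏ v ∈ H38.MT.rf Q S χ, nm v : ℕ) : ℝ) ^ H38.ML.indG dG * ((NumberField.discr K).natAbs : ℝ) ^ 3
      ≤ (D : ℝ) * H38.MT.cf Q S χ ^ H38.ML.indG dG * ((NumberField.discr K).natAbs : ℝ) ^ 3 := by
        refine mul_le_mul_of_nonneg_right ?_ hdis0
        exact mul_le_mul hdDr hpw (pow_nonneg hn0 _) (Nat.cast_nonneg _)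
    _ = ((D : ℝ) * ((NumberField.discr K).natAbs : ℝ) ^ 3) * H38.MT.cf Q S χ ^ H38.ML.indG dG := by ring
    _ ≤ _ := mul_le_mul_of_nonneg_right (le_max_right _ _) hcf0

end H67.AQ
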