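import Mathlib

/-!
# AQ (MP_b39724_nt): abstract data for the end of case B (complete)

`EE1 ι α`: as `H38.SE.EE`, but the sum of `s` may have a power `lo < 1` of the logarithm. `esm`: the bound for real `R`.
-/

set_option autoImplicit false

open scoped Classical
open Filter Topology

noncomputable section

namespace H67.AQ

/-- abstract data for the count -/
structure EE1 (ι α : Type) where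
  P : Set ι
  D : ι → ℕ
  s : ι → ℝ
  N : ι → ℝ → ℝ
  w : ι → ℝ
  Z : ι → Finset α
  F : α → ℝ → ℝ
  C : ℝ
  δ : ℝ
  lo : ℝ
  A : ℕ
  a : ℝ
  C1 : 1 ≤ C
  δ0 : 0 < δ
  δ1 : δ ≤ 1
  lo0 : 0 ≤ lo
  lo1 : lo < 1
  D1 : ∀ i ∈ P, 1 ≤ D i
  s1 : ∀ i ∈ P, 1 ≤ s i
  fin : ∀ R : ℕ, {i | i ∈ P ∧ D i ≤ R}.Finite
  sm : ∀ (R : ℕ), 1 ≤ R → ∀ T : Finset ι, (∀ i ∈ T, i ∈ P ∧ D i ≤ R) →
    ∑ i ∈ T, s i ≤ C * R * (1 + Real.log R) ^ lo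
  N0 : ∀ i Y, 0 ≤ N i Y
  N1 : ∀ i ∈ P, ∀ Y, 1 ≤ Y → N i Y ≤ C * s i * Y * (1 + Real.log Y) ^ 2
  w0 : ∀ i, 0 ≤ w i
  Zc : ∀ i ∈ P, ((Z i).card : ℝ) ≤ C * s i
  Zm : ∀ (x : α) (T : Finset ι), (∀ i ∈ T, i ∈ P ∧ x ∈ Z i) → T.card ≤ 3
  F0 : ∀ x Y, 0 ≤ F x Y
  FT : ∀ i ∈ P, ∀ x ∈ Z i, ∀ Y, 1 ≤ Y →
    F x Y ≤ C * Y * (1 + Real.log Y) ^ 2 * (1 + Real.log (D i)) ^ 3
  F1 : ∀ i ∈ P, ∀ x ∈ Z i, ∀ Y, 1 ≤ Y → F x Y ≤ C * (D i : ℝ) ^ A * Y ^ (1 - δ)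
  F2 : ∀ (B : ℕ) (ε : ℝ), 0 < ε → ∃ R₀ : ℝ, 3 ≤ R₀ ∧ ∀ R : ℝ, R₀ ≤ R → ∀ J : Set α,
    (∀ x ∈ J, (∃ i ∈ P, x ∈ Z i ∧ (D i : ℝ) ≤ R) ∧
      ∃ Y : ℝ, Real.exp (Real.log (Real.log R) ^ 3) ≤ Y ∧ Y / Real.log R ^ B < F x Y) →
    J.Finite ∧ (J.ncard : ℝ) ≤ R ^ ε
  E1 : ∀ i ∈ P, ∀ Y, 1 ≤ Y → |N i Y - w i * Y| ≤ C + C * ∑ x ∈ Z i, F x Y
  m : Tendsto (fun R : ℕ => (∑ i ∈ (fin R).toFinset, w i) / (R : ℝ)) atTop (𝓝 a)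

variable {ι α : Type}

theorem esm (e : EE1 ι α) (R X : ℝ) (hR : 0 ≤ R) (hX : 1 ≤ X) (hRX : R ≤ X) (T : Finset ι)
    (hT : ∀ i ∈ T, i ∈ e.P ∧ (e.D i : ℝ) ≤ R) :
    ∑ i ∈ T, e.s i ≤ e.C * R * (1 + Real.log X) ^ e.lo := by
  have hC := e.C1
  have hlX : 0 ≤ Real.log X := Real.log_nonneg hX
  rcases T.eq_empty_or_nonempty with rfl | ⟨i₀, hi₀⟩
  · rw [Finset.sum_empty]
    positivity
  · have h1 : (1 : ℝ) ≤ R := by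
      have h2 : (1 : ℝ) ≤ e.D i₀ := by exact_mod_cast e.D1 i₀ (hT i₀ hi₀).1
      exact h2.trans (hT i₀ hi₀).2
    have h3 : 1 ≤ ⌊R⌋₊ := Nat.le_floor (by exact_mod_cast h1)
    have h4 : ((⌊R⌋₊ : ℕ) : ℝ) ≤ R := Nat.floor_le hR
    have h5 : (1 : ℝ) ≤ ((⌊R⌋₊ : ℕ) : ℝ) := by exact_mod_cast h3
    refine (e.sm ⌊R⌋₊ h3 T fun i hi => ⟨(hT i hi).1, Nat.le_floor (hT i hi).2⟩).trans ?_
    have h6 : Real.log ((⌊R⌋₊ : ℕ) : ℝ) ≤ Real.log X :=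
      Real.log_le_log (by linarith) (h4.trans hRX)
    have h7 : 0 ≤ Real.log ((⌊R⌋₊ : ℕ) : ℝ) := Real.log_nonneg h5
    refine mul_le_mul (mul_le_mul_of_nonneg_left h4 (by linarith))
      (Real.rpow_le_rpow (by linarith) (by linarith) e.lo0) (Real.rpow_nonneg (by linarith) _)
      (by positivity)

end H67.AQ
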