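import Pool.Agent.H67.AQ.EDf

/-!
# [H38 SE ELO] the low range (pure analysis), 50-90 lines. File Pool/Agent/H38/SE/Elo.lean

`η = δ / (2 (A + 2))`, so `0 < η ≤ 1/4` and `η (A + 1) ≤ δ / 2`. For `i ∈ T`: `1 ≤ D i ≤ X ^ η ≤ X`, `Y = X / D i ≥ 1`; `e.E1`, `e.F1`: the term is at most `C + C ∑_{x ∈ Z i} C (D i)^A (X / D i)^(1 - δ) ≤ C + C ^ 2 #(Z i) X ^ (η A) X ^ (1 - δ) ≤ C + C ^ 3 s i X ^ (η A + 1 - δ)` (`(D i)^A ≤ X ^ (η A)`, `X / D i ≤ X`, `e.Zc`).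
`∑_T s i ≤ C ⌊X ^ η⌋₊ ≤ C X ^ η` (`e.sm`), `#T ≤ ∑_T s i` (`e.s1`). Total `≤ C ^ 2 X ^ η + C ^ 4 X ^ (η (A + 1) + 1 - δ) ≤ (C ^ 2 + C ^ 4) X ^ (1 - η)`: `η ≤ 1 - η` and `η (A + 1) + 1 - δ ≤ 1 - δ / 2 ≤ 1 - η`.
-/

set_option autoImplicit false

open scoped Classical
open Filter Topology

noncomputable section

namespace H67.AQ

variable {ι α : Type}

theorem elow (e : EE1 ι α) : ∃ C' η : ℝ, 0 < C' ∧ 0 < η ∧ η ≤ 1 / 2 ∧ ∀ X : ℝ, 1 ≤ X → ∀ T : Finset ι,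
    (∀ i ∈ T, i ∈ e.P ∧ (e.D i : ℝ) ≤ X ^ η) →
    ∑ i ∈ T, |e.N i (X / e.D i) - e.w i * (X / e.D i)| ≤
      C' * (X ^ (1 - η) * (1 + Real.log X) ^ e.lo) := by
  have hC := e.C1
  have hC0 : 0 < e.C := by linarith
  have hδ0 := e.δ0
  have hδ1 := e.δ1
  have hA : (0 : ℝ) ≤ (e.A : ℝ) := Nat.cast_nonneg _
  obtain ⟨η, hη⟩ : ∃ η : ℝ, η = e.δ / (2 * ((e.A : ℝ) + 2)) := ⟨_, rfl⟩
  have hη0 : 0 < η := by rw [hη]; positivity
  have hη1 : η * ((e.A : ℝ) + 2) = e.δ / 2 := by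
    rw [hη]
    field_simp
  have hη2 : η ≤ 1 / 4 := by
    have h1 : 0 ≤ η * (e.A : ℝ) := by positivity
    linarith
  refine ⟨e.C ^ 2 + e.C ^ 4, η, by positivity, hη0, by linarith, fun X hX T hT => ?_⟩
  have hX0 : 0 < X := by linarith
  have hXη : X ^ η ≤ X := by
    calc X ^ η ≤ X ^ (1 : ℝ) := Real.rpow_le_rpow_of_exponent_le hX (by linarith)
      _ = X := Real.rpow_one X
  have hlX : 0 ≤ Real.log X := Real.log_nonneg hX
  obtain ⟨g, hg⟩ : ∃ g : ℝ, g = (1 + Real.log X) ^ e.lo := ⟨_, rfl⟩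
  have hg0 : 0 < g := by
    rw [hg]
    positivity
  have hs : ∑ i ∈ T, e.s i ≤ e.C * X ^ η * g := by
    rw [hg]
    exact esm e (X ^ η) X (by positivity) hX hXη T hT
  have hcard : (T.card : ℝ) ≤ ∑ i ∈ T, e.s i := by
    calc (T.card : ℝ) = ∑ _i ∈ T, (1 : ℝ) := by simp
      _ ≤ ∑ i ∈ T, e.s i := Finset.sum_le_sum fun i hi => e.s1 i (hT i hi).1
  have hterm : ∀ i ∈ T, |e.N i (X / e.D i) - e.w i * (X / e.D i)| ≤
      e.C + e.C ^ 3 * X ^ (η * e.A + (1 - e.δ)) * e.s i := by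
    intro i hi
    obtain ⟨hP, hD⟩ := hT i hi
    have hD1 : (1 : ℝ) ≤ (e.D i : ℝ) := by exact_mod_cast e.D1 i hP
    have hD0 : (0 : ℝ) < (e.D i : ℝ) := by linarith
    have hY : 1 ≤ X / e.D i := by
      rw [le_div_iff₀ hD0]
      linarith
    have hYX : X / e.D i ≤ X := div_le_self hX0.le hD1
    have h1 := e.E1 i hP _ hY
    have hs1 := e.s1 i hP
    have h2 : ∑ x ∈ e.Z i, e.F x (X / e.D i) ≤
        ((e.Z i).card : ℝ) * (e.C * (X ^ (η * e.A) * X ^ (1 - e.δ))) := by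
      rw [← nsmul_eq_mul]
      refine Finset.sum_le_card_nsmul _ _ _ fun x hx => ?_
      refine (e.F1 i hP x hx _ hY).trans ?_
      rw [mul_assoc]
      refine mul_le_mul_of_nonneg_left ?_ hC0.le
      refine mul_le_mul ?_ ?_ (by positivity) (by positivity)
      · calc (e.D i : ℝ) ^ e.A ≤ (X ^ η) ^ e.A := pow_le_pow_left₀ hD0.le hD _
          _ = X ^ (η * e.A) := by rw [← Real.rpow_natCast, ← Real.rpow_mul hX0.le]
      · exact Real.rpow_le_rpow (by positivity) hYX (by linarith)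
    have h3 : ((e.Z i).card : ℝ) * (e.C * (X ^ (η * e.A) * X ^ (1 - e.δ))) ≤
        (e.C * e.s i) * (e.C * (X ^ (η * e.A) * X ^ (1 - e.δ))) :=
      mul_le_mul_of_nonneg_right (e.Zc i hP) (by positivity)
    have h4 : X ^ (η * e.A) * X ^ (1 - e.δ) = X ^ (η * e.A + (1 - e.δ)) :=
      (Real.rpow_add hX0 _ _).symm
    rw [h4] at h3 h2
    have h5 := mul_le_mul_of_nonneg_left (h2.trans h3) hC0.le
    calc _ ≤ e.C + e.C * ∑ x ∈ e.Z i, e.F x (X / e.D i) := h1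
      _ ≤ e.C + e.C * ((e.C * e.s i) * (e.C * X ^ (η * e.A + (1 - e.δ)))) := by linarith
      _ = _ := by ring
  have hp : 0 < X ^ (η * e.A + (1 - e.δ)) := Real.rpow_pos_of_pos hX0 _
  have hC3 : 0 ≤ e.C ^ 3 * X ^ (η * e.A + (1 - e.δ)) := by positivity
  have hlast : X ^ (η * e.A + (1 - e.δ) + η) ≤ X ^ (1 - η) :=
    Real.rpow_le_rpow_of_exponent_le hX (by linarith)
  have hlast' : X ^ η ≤ X ^ (1 - η) := Real.rpow_le_rpow_of_exponent_le hX (by linarith)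
  calc ∑ i ∈ T, |e.N i (X / e.D i) - e.w i * (X / e.D i)|
      ≤ ∑ i ∈ T, (e.C + e.C ^ 3 * X ^ (η * e.A + (1 - e.δ)) * e.s i) := Finset.sum_le_sum hterm
    _ = T.card * e.C + e.C ^ 3 * X ^ (η * e.A + (1 - e.δ)) * ∑ i ∈ T, e.s i := by
        rw [Finset.sum_add_distrib, ← Finset.mul_sum, Finset.sum_const, nsmul_eq_mul]
    _ ≤ (e.C * X ^ η * g) * e.C + e.C ^ 3 * X ^ (η * e.A + (1 - e.δ)) * (e.C * X ^ η * g) :=
        add_le_add (mul_le_mul_of_nonneg_right (hcard.trans hs) hC0.le)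
          (mul_le_mul_of_nonneg_left hs hC3)
    _ = (e.C ^ 2 * X ^ η + e.C ^ 4 * X ^ (η * e.A + (1 - e.δ) + η)) * g := by
        rw [Real.rpow_add hX0 (η * e.A + (1 - e.δ)) η]
        ring
    _ ≤ (e.C ^ 2 * X ^ (1 - η) + e.C ^ 4 * X ^ (1 - η)) * g :=
        mul_le_mul_of_nonneg_right (add_le_add (mul_le_mul_of_nonneg_left hlast' (by positivity))
          (mul_le_mul_of_nonneg_left hlast (by positivity))) hg0.le
    _ = _ := by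
        rw [← hg]
        ring

end H67.AQ
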