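import Pool.Agent.H67.AQ.Etp
import Pool.Agent.H67.AQ.Elo
import Pool.Agent.H67.AQ.Emd
import Pool.Agent.H38.SE.Eab

/-!
# AQ (MP_b39724_nt): the limit for the end of case B (complete, proved; pattern H38/SE/Elm)
-/

set_option autoImplicit false

open scoped Classical
open Filter Topology

noncomputable section

namespace H67.AQ

variable {ι α : Type}

private def Y0 (X : ℝ) : ℝ := 2 * Real.exp (Real.log (Real.log X) ^ 3)

private theorem em_set (e : EE1 ι α) (n k : ℕ) (hk : k ≤ n) :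
    (e.fin n).toFinset.filter (fun i => e.D i = k) =
      (e.fin k).toFinset.filter (fun i => e.D i = k) := by
  ext i
  simp only [Finset.mem_filter, Set.Finite.mem_toFinset, Set.mem_setOf_eq]
  constructor
  · rintro ⟨⟨h1, _⟩, h3⟩
    exact ⟨⟨h1, h3.le⟩, h3⟩
  · rintro ⟨⟨h1, _⟩, h3⟩
    exact ⟨⟨h1, h3.le.trans hk⟩, h3⟩

private theorem em_maps (e : EE1 ι α) (n : ℕ) :
    ∀ i ∈ (e.fin n).toFinset, e.D i ∈ Finset.range (n + 1) := by
  intro i hi
  rw [Set.Finite.mem_toFinset] at hi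
  rw [Finset.mem_range]
  exact Nat.lt_succ_of_le hi.2

theorem emn (e : EE1 ι α) : Tendsto (fun n : ℕ =>
    (∑ i ∈ (e.fin n).toFinset, e.w i / (e.D i : ℝ)) / Real.log n) atTop (𝓝 e.a) := by
  set b : ℕ → ℝ := fun k => ∑ i ∈ (e.fin k).toFinset.filter (fun i => e.D i = k), e.w i with hb
  have h1 : ∀ n : ℕ, ∑ k ∈ Finset.range (n + 1), b k = ∑ i ∈ (e.fin n).toFinset, e.w i := by
    intro n
    rw [← Finset.sum_fiberwise_of_maps_to (em_maps e n) e.w]
    refine Finset.sum_congr rfl fun k hk => ?_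
    rw [hb]
    simp only
    rw [em_set e n k (Nat.lt_succ_iff.1 (Finset.mem_range.1 hk))]
  have h2 : ∀ n : ℕ, ∑ k ∈ Finset.range (n + 1), b k / (k : ℝ) =
      ∑ i ∈ (e.fin n).toFinset, e.w i / (e.D i : ℝ) := by
    intro n
    rw [← Finset.sum_fiberwise_of_maps_to (em_maps e n) (fun i => e.w i / (e.D i : ℝ))]
    refine Finset.sum_congr rfl fun k hk => ?_
    rw [em_set e n k (Nat.lt_succ_iff.1 (Finset.mem_range.1 hk)), hb]
    simp only
    rw [Finset.sum_div]
    refine Finset.sum_congr rfl fun i hi => ?_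
    rw [(Finset.mem_filter.1 hi).2]
  have h3 := H38.SE.eab b e.a (e.m.congr fun n => by rw [h1 n])
  exact h3.congr fun n => by rw [h2 n]

private theorem el_lim : Tendsto (fun X : ℝ => Real.log (Real.log X) ^ 9 / Real.log X) atTop (𝓝 0) := by
  have h1 : Tendsto (fun L : ℝ => Real.log L ^ (9 : ℝ) / L ^ (1 : ℝ)) atTop (𝓝 0) :=
    (isLittleO_log_rpow_rpow_atTop (9 : ℝ) one_pos).tendsto_div_nhds_zero
  have h2 := h1.comp Real.tendsto_log_atTop
  refine h2.congr fun X => ?_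
  change Real.log (Real.log X) ^ (9 : ℝ) / Real.log X ^ (1 : ℝ) = _
  rw [Real.rpow_one]
  congr 1
  rw [← Real.rpow_natCast]
  norm_num

private theorem el_inv : Tendsto (fun X : ℝ => 1 / Real.log X) atTop (𝓝 0) := by
  have h1 := Real.tendsto_log_atTop.inv_tendsto_atTop
  refine h1.congr fun X => ?_
  change (Real.log X)⁻¹ = _
  rw [one_div]

private theorem el_Y (X : ℝ) (h : 1 ≤ Real.log (Real.log X)) :
    2 ≤ Y0 X ∧ 0 ≤ Real.log (Y0 X) ∧ 1 + Real.log (Y0 X) ≤ 3 * Real.log (Real.log X) ^ 3 ∧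
      Real.exp (Real.log (Real.log X) ^ 3) ≤ Y0 X := by
  have h6 : 1 ≤ Real.log (Real.log X) ^ 3 := one_le_pow₀ h
  have hexp : 1 ≤ Real.exp (Real.log (Real.log X) ^ 3) := by
    apply Real.one_le_exp
    linarith
  have hY : Y0 X = 2 * Real.exp (Real.log (Real.log X) ^ 3) := rfl
  have h2 : 2 ≤ Y0 X := by
    rw [hY]
    linarith
  refine ⟨h2, Real.log_nonneg (by linarith), ?_, ?_⟩
  · have h4 : Real.log (Y0 X) = Real.log 2 + Real.log (Real.log X) ^ 3 := by
      rw [hY, Real.log_mul (by norm_num) (Real.exp_pos _).ne', Real.log_exp]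
    have h5 : Real.log 2 ≤ 1 := by
      have := Real.log_two_lt_d9
      linarith
    rw [h4]
    linarith
  · rw [hY]
    linarith

private theorem el_ll : ∀ᶠ X : ℝ in atTop, 1 ≤ Real.log (Real.log X) :=
  (Real.tendsto_log_atTop.comp Real.tendsto_log_atTop).eventually_ge_atTop 1

private theorem el_cub : Tendsto (fun X : ℝ => (1 + Real.log (Y0 X)) ^ 3 / Real.log X) atTop
    (𝓝 0) := by
  have h1 : Tendsto (fun X : ℝ => 27 * (Real.log (Real.log X) ^ 9 / Real.log X)) atTop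
      (𝓝 (27 * 0)) := el_lim.const_mul 27
  rw [mul_zero] at h1
  refine squeeze_zero' ?_ ?_ h1
  · filter_upwards [el_ll, Real.tendsto_log_atTop.eventually_ge_atTop 1] with X h2 h3
    have h4 := (el_Y X h2).2.1
    positivity
  · filter_upwards [el_ll, Real.tendsto_log_atTop.eventually_ge_atTop 1] with X h2 h3
    obtain ⟨_, h5, h6, _⟩ := el_Y X h2
    have h7 : (1 + Real.log (Y0 X)) ^ 3 ≤ 27 * Real.log (Real.log X) ^ 9 := by
      calc (1 + Real.log (Y0 X)) ^ 3 ≤ (3 * Real.log (Real.log X) ^ 3) ^ 3 :=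
            pow_le_pow_left₀ (by linarith) h6 3
        _ = 27 * Real.log (Real.log X) ^ 9 := by ring
    rw [← mul_div_assoc]
    exact div_le_div_of_nonneg_right h7 (by linarith)

private theorem el_pow (lo : ℝ) (h0 : 0 ≤ lo) (h1 : lo < 1) (L : ℝ) (hL : 1 ≤ L) :
    (1 + L) ^ lo / L ≤ 2 * (1 / L ^ (1 - lo)) := by
  have hL0 : 0 < L := by linarith
  have h2 : (1 + L) ^ lo ≤ 2 * L ^ lo := by
    calc (1 + L) ^ lo ≤ (2 * L) ^ lo := Real.rpow_le_rpow (by linarith) (by linarith) h0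
      _ = 2 ^ lo * L ^ lo := Real.mul_rpow (by norm_num) hL0.le
      _ ≤ 2 * L ^ lo := by
          refine mul_le_mul_of_nonneg_right ?_ (Real.rpow_nonneg hL0.le _)
          calc (2 : ℝ) ^ lo ≤ 2 ^ (1 : ℝ) :=
                Real.rpow_le_rpow_of_exponent_le (by norm_num) h1.le
            _ = 2 := Real.rpow_one 2
  have h3 : L ^ lo / L = 1 / L ^ (1 - lo) := by
    rw [Real.rpow_sub hL0, Real.rpow_one, one_div, inv_div]
  calc (1 + L) ^ lo / L ≤ 2 * L ^ lo / L := div_le_div_of_nonneg_right h2 hL0.le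
    _ = 2 * (L ^ lo / L) := by ring
    _ = 2 * (1 / L ^ (1 - lo)) := by rw [h3]

private theorem el_lpo (lo : ℝ) (h0 : 0 ≤ lo) (h1 : lo < 1) :
    Tendsto (fun X : ℝ => (1 + Real.log X) ^ lo / Real.log X) atTop (𝓝 0) := by
  have h2 : Tendsto (fun L : ℝ => L ^ (1 - lo)) atTop atTop :=
    tendsto_rpow_atTop (by linarith)
  have h3 : Tendsto (fun X : ℝ => 2 * (1 / Real.log X ^ (1 - lo))) atTop (𝓝 (2 * 0)) := by
    have h4 := (h2.comp Real.tendsto_log_atTop).inv_tendsto_atTop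
    refine (h4.const_mul 2).congr fun X => ?_
    change 2 * (Real.log X ^ (1 - lo))⁻¹ = _
    rw [one_div]
  rw [mul_zero] at h3
  refine squeeze_zero' ?_ ?_ h3
  · filter_upwards [Real.tendsto_log_atTop.eventually_ge_atTop 1] with X h4
    exact div_nonneg (Real.rpow_nonneg (by linarith) _) (by linarith)
  · filter_upwards [Real.tendsto_log_atTop.eventually_ge_atTop 1] with X h4
    exact el_pow lo h0 h1 _ h4

private theorem el_lcu (lo : ℝ) (h0 : 0 ≤ lo) (h1 : lo < 1) :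
    Tendsto (fun X : ℝ => (1 + Real.log X) ^ lo * (1 + Real.log (Y0 X)) ^ 3 / Real.log X) atTop
      (𝓝 0) := by
  have h2 : Tendsto (fun L : ℝ => Real.log L ^ (9 : ℝ) / L ^ (1 - lo)) atTop (𝓝 0) :=
    (isLittleO_log_rpow_rpow_atTop (9 : ℝ) (by linarith)).tendsto_div_nhds_zero
  have h3 : Tendsto (fun X : ℝ => 54 * (Real.log (Real.log X) ^ (9 : ℝ) / Real.log X ^ (1 - lo)))
      atTop (𝓝 (54 * 0)) := (h2.comp Real.tendsto_log_atTop).const_mul 54
  rw [mul_zero] at h3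
  refine squeeze_zero' ?_ ?_ h3
  · filter_upwards [el_ll, Real.tendsto_log_atTop.eventually_ge_atTop 1] with X h4 h5
    have h6 := (el_Y X h4).2.1
    have h7 : 0 ≤ (1 + Real.log X) ^ lo := Real.rpow_nonneg (by linarith) _
    positivity
  · filter_upwards [el_ll, Real.tendsto_log_atTop.eventually_ge_atTop 1] with X h4 h5
    obtain ⟨_, h6, h7, _⟩ := el_Y X h4
    have h8 : (1 + Real.log (Y0 X)) ^ 3 ≤ 27 * Real.log (Real.log X) ^ (9 : ℝ) := by
      have h9 : Real.log (Real.log X) ^ (9 : ℝ) = Real.log (Real.log X) ^ 9 := by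
        rw [← Real.rpow_natCast]
        norm_num
      rw [h9]
      calc (1 + Real.log (Y0 X)) ^ 3 ≤ (3 * Real.log (Real.log X) ^ 3) ^ 3 :=
            pow_le_pow_left₀ (by linarith) h7 3
        _ = 27 * Real.log (Real.log X) ^ 9 := by ring
    have h10 := el_pow lo h0 h1 _ h5
    have h11 : 0 ≤ (1 + Real.log X) ^ lo / Real.log X :=
      div_nonneg (Real.rpow_nonneg (by linarith) _) (by linarith)
    have h12 : 0 ≤ Real.log (Real.log X) ^ (9 : ℝ) := Real.rpow_nonneg (by linarith) _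
    calc (1 + Real.log X) ^ lo * (1 + Real.log (Y0 X)) ^ 3 / Real.log X =
          (1 + Real.log X) ^ lo / Real.log X * (1 + Real.log (Y0 X)) ^ 3 := by ring
      _ ≤ 2 * (1 / Real.log X ^ (1 - lo)) * (27 * Real.log (Real.log X) ^ (9 : ℝ)) :=
          mul_le_mul h10 h8 (by positivity) (h11.trans h10)
      _ = 54 * (Real.log (Real.log X) ^ (9 : ℝ) / Real.log X ^ (1 - lo)) := by ring

private theorem el_lin : Tendsto (fun X : ℝ => (1 + Real.log (Y0 X)) / Real.log X) atTop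
    (𝓝 0) := by
  refine squeeze_zero' ?_ ?_ el_cub
  · filter_upwards [el_ll, Real.tendsto_log_atTop.eventually_ge_atTop 1] with X h2 h3
    have h4 := (el_Y X h2).2.1
    positivity
  · filter_upwards [el_ll, Real.tendsto_log_atTop.eventually_ge_atTop 1] with X h2 h3
    have h4 := (el_Y X h2).2.1
    refine div_le_div_of_nonneg_right ?_ (by linarith)
    exact le_self_pow₀ (by linarith) (by norm_num)

private theorem el_top : Tendsto (fun X : ℝ => X / Y0 X) atTop atTop := by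
  have h1 : Tendsto (fun X : ℝ => Real.exp (Real.log X / 2)) atTop atTop :=
    Real.tendsto_exp_atTop.comp (Real.tendsto_log_atTop.atTop_div_const (by norm_num))
  refine tendsto_atTop_mono' _ ?_ h1
  filter_upwards [el_ll, Real.tendsto_log_atTop.eventually_ge_atTop 1, eventually_gt_atTop (0 : ℝ),
    el_lin.eventually_lt_const (show (0 : ℝ) < 1 / 2 by norm_num)] with X h2 h3 h4 h5
  obtain ⟨h6, _, _, _⟩ := el_Y X h2
  rw [div_lt_iff₀ (by linarith)] at h5
  have h7 : 0 < X / Y0 X := div_pos h4 (by linarith)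
  rw [← Real.le_log_iff_exp_le h7, Real.log_div h4.ne' (by linarith)]
  linarith

private theorem el_flr : Tendsto (fun X : ℝ => Real.log (⌊X / Y0 X⌋₊ : ℝ) / Real.log X) atTop
    (𝓝 1) := by
  have h1 : Tendsto (fun X : ℝ => 1 - (1 + Real.log (Y0 X)) / Real.log X) atTop (𝓝 (1 - 0)) :=
    tendsto_const_nhds.sub el_lin
  rw [sub_zero] at h1
  refine tendsto_of_tendsto_of_tendsto_of_le_of_le' h1 tendsto_const_nhds ?_ ?_
  · filter_upwards [el_ll, Real.tendsto_log_atTop.eventually_ge_atTop 1,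
      eventually_gt_atTop (0 : ℝ), el_top.eventually_ge_atTop 2] with X h2 h3 h4 h5
    obtain ⟨h6, _, _, _⟩ := el_Y X h2
    have hL : 0 < Real.log X := by linarith
    rw [le_div_iff₀ hL, sub_mul, one_mul, div_mul_cancel₀ _ hL.ne']
    have h8 : X / Y0 X / 2 ≤ (⌊X / Y0 X⌋₊ : ℝ) := by
      have := Nat.lt_floor_add_one (X / Y0 X)
      linarith
    have h9 : Real.log (X / Y0 X / 2) ≤ Real.log (⌊X / Y0 X⌋₊ : ℝ) :=
      Real.log_le_log (by positivity) h8
    rw [Real.log_div (by positivity) (by norm_num), Real.log_div h4.ne' (by linarith)] at h9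
    have h10 : Real.log 2 ≤ 1 := by
      have := Real.log_two_lt_d9
      linarith
    linarith
  · filter_upwards [el_ll, Real.tendsto_log_atTop.eventually_ge_atTop 1,
      eventually_gt_atTop (0 : ℝ), el_top.eventually_ge_atTop 2] with X h2 h3 h4 h5
    obtain ⟨h6, _, _, _⟩ := el_Y X h2
    have hL : 0 < Real.log X := by linarith
    rw [div_le_one hL]
    have h8 : (⌊X / Y0 X⌋₊ : ℝ) ≤ X / Y0 X := Nat.floor_le (by linarith)
    have h9 : X / Y0 X ≤ X := div_le_self h4.le (by linarith)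
    have h10 : 0 < (⌊X / Y0 X⌋₊ : ℝ) := by
      have := Nat.lt_floor_add_one (X / Y0 X)
      linarith
    exact Real.log_le_log h10 (h8.trans h9)

private theorem el_main (e : EE1 ι α) : Tendsto (fun X : ℝ =>
    (∑ i ∈ (e.fin ⌊X / Y0 X⌋₊).toFinset, e.w i / (e.D i : ℝ)) / Real.log X) atTop (𝓝 e.a) := by
  have h1 : Tendsto (fun X : ℝ => ⌊X / Y0 X⌋₊) atTop atTop := tendsto_nat_floor_atTop.comp el_top
  have h2 := ((emn e).comp h1).mul el_flr
  rw [mul_one] at h2
  refine h2.congr' ?_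
  filter_upwards [el_top.eventually_ge_atTop 3] with X h3
  change (∑ i ∈ (e.fin ⌊X / Y0 X⌋₊).toFinset, e.w i / (e.D i : ℝ)) /
    Real.log (⌊X / Y0 X⌋₊ : ℝ) * (Real.log (⌊X / Y0 X⌋₊ : ℝ) / Real.log X) = _
  have h4 : (1 : ℝ) < (⌊X / Y0 X⌋₊ : ℝ) := by
    have := Nat.lt_floor_add_one (X / Y0 X)
    linarith
  have h5 : Real.log (⌊X / Y0 X⌋₊ : ℝ) ≠ 0 := (Real.log_pos h4).ne'
  rw [div_mul_div_comm, mul_comm (∑ i ∈ (e.fin ⌊X / Y0 X⌋₊).toFinset, e.w i / (e.D i : ℝ)),
    mul_div_mul_left _ _ h5]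

theorem elim (e : EE1 ι α) : Tendsto (fun X : ℝ =>
    (∑ i ∈ (e.fin ⌊X⌋₊).toFinset, e.N i (X / e.D i)) / (X * Real.log X)) atTop (𝓝 e.a) := by
  obtain ⟨Ct, hCt, htop⟩ := etop e
  obtain ⟨Cl, η, hCl, hη0, hη1, hlow⟩ := elow e
  obtain ⟨Cm, X₀, hCm, hX₀, hmid⟩ := emid e η hη0
  have t1 : Tendsto (fun X : ℝ =>
      Ct * ((1 + Real.log X) ^ e.lo * (1 + Real.log (Y0 X)) ^ 3 / Real.log X) +
      (Cl + Cm) * ((1 + Real.log X) ^ e.lo / Real.log X)) atTop (𝓝 (Ct * 0 + (Cl + Cm) * 0)) :=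
    ((el_lcu e.lo e.lo0 e.lo1).const_mul Ct).add ((el_lpo e.lo e.lo0 e.lo1).const_mul _)
  rw [mul_zero, mul_zero, add_zero] at t1
  have key : Tendsto (fun X : ℝ =>
      (∑ i ∈ (e.fin ⌊X⌋₊).toFinset, e.N i (X / e.D i)) / (X * Real.log X) -
      (∑ i ∈ (e.fin ⌊X / Y0 X⌋₊).toFinset, e.w i / (e.D i : ℝ)) / Real.log X) atTop (𝓝 0) := by
    refine squeeze_zero_norm' ?_ t1
    filter_upwards [el_ll, Real.tendsto_log_atTop.eventually_ge_atTop 1,
      eventually_ge_atTop X₀] with X h2 h3 hX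
    obtain ⟨hY2, hY0, _, hYe⟩ := el_Y X h2
    have hX3 : 3 ≤ X := hX₀.trans hX
    have hX0 : 0 < X := by linarith
    have hL : 0 < Real.log X := by linarith
    have hYp : 0 < Y0 X := by linarith
    set T := (e.fin ⌊X⌋₊).toFinset with hT
    have hTm : ∀ i ∈ T, i ∈ e.P ∧ (e.D i : ℝ) ≤ X ∧ 0 < (e.D i : ℝ) := by
      intro i hi
      rw [hT, Set.Finite.mem_toFinset] at hi
      refine ⟨hi.1, (Nat.le_floor_iff hX0.le).1 hi.2, ?_⟩
      exact_mod_cast e.D1 i hi.1
    set B := (e.fin ⌊X / Y0 X⌋₊).toFinset with hB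
    have hBT : T.filter (fun i => Y0 X ≤ X / e.D i) = B := by
      ext i
      constructor
      · intro hi
        rw [Finset.mem_filter] at hi
        obtain ⟨h4, _, h6⟩ := hTm i hi.1
        rw [hB, Set.Finite.mem_toFinset]
        refine ⟨h4, ?_⟩
        rw [Nat.le_floor_iff (by positivity), le_div_iff₀ hYp]
        have h7 := hi.2
        rw [le_div_iff₀ h6] at h7
        linarith
      · intro hi
        rw [hB, Set.Finite.mem_toFinset] at hi
        have h6 : 0 < (e.D i : ℝ) := by exact_mod_cast e.D1 i hi.1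
        have h7 := (Nat.le_floor_iff (by positivity)).1 hi.2
        rw [le_div_iff₀ hYp] at h7
        rw [Finset.mem_filter, hT, Set.Finite.mem_toFinset]
        refine ⟨⟨hi.1, ?_⟩, ?_⟩
        · rw [Nat.le_floor_iff hX0.le]
          nlinarith
        · rw [le_div_iff₀ h6]
          linarith
    have hBm : ∀ i ∈ B, i ∈ e.P ∧ 0 < (e.D i : ℝ) ∧ Y0 X ≤ X / e.D i := by
      intro i hi
      rw [← hBT, Finset.mem_filter] at hi
      exact ⟨(hTm i hi.1).1, (hTm i hi.1).2.2, hi.2⟩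
    -- part (a)
    have sa : ∑ i ∈ T.filter (fun i => ¬ Y0 X ≤ X / e.D i), e.N i (X / e.D i) ≤
        Ct * (X * (1 + Real.log X) ^ e.lo * (1 + Real.log (Y0 X)) ^ 3) := by
      refine htop X (Y0 X) (by linarith) (by linarith) _ fun i hi => ?_
      rw [Finset.mem_filter] at hi
      exact ⟨(hTm i hi.1).1, (hTm i hi.1).2.1, (not_le.1 hi.2).le⟩
    have sa0 : 0 ≤ ∑ i ∈ T.filter (fun i => ¬ Y0 X ≤ X / e.D i), e.N i (X / e.D i) :=
      Finset.sum_nonneg fun i _ => e.N0 _ _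
    -- part (b)
    have sb1 : ∑ i ∈ B.filter (fun i => (e.D i : ℝ) ≤ X ^ η),
        |e.N i (X / e.D i) - e.w i * (X / e.D i)| ≤ Cl * (X ^ (1 - η) * (1 + Real.log X) ^ e.lo) := by
      refine hlow X (by linarith) _ fun i hi => ?_
      rw [Finset.mem_filter] at hi
      exact ⟨(hBm i hi.1).1, hi.2⟩
    have sb2 : ∑ i ∈ B.filter (fun i => ¬ (e.D i : ℝ) ≤ X ^ η),
        |e.N i (X / e.D i) - e.w i * (X / e.D i)| ≤ Cm * (X * (1 + Real.log X) ^ e.lo) := by
      refine hmid X hX _ fun i hi => ?_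
      rw [Finset.mem_filter] at hi
      obtain ⟨h4, h5, h6⟩ := hBm i hi.1
      refine ⟨h4, not_le.1 hi.2, ?_, hYe.trans h6⟩
      have h7 : 2 ≤ X / e.D i := hY2.trans h6
      rwa [le_div_iff₀ h5] at h7
    have sb : |∑ i ∈ B, (e.N i (X / e.D i) - e.w i * (X / e.D i))| ≤
        Cl * (X * (1 + Real.log X) ^ e.lo) + Cm * (X * (1 + Real.log X) ^ e.lo) := by
      refine (Finset.abs_sum_le_sum_abs _ _).trans ?_
      rw [← Finset.sum_filter_add_sum_filter_not B (fun i => (e.D i : ℝ) ≤ X ^ η)]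
      have h8 : X ^ (1 - η) ≤ X := by
        calc X ^ (1 - η) ≤ X ^ (1 : ℝ) :=
              Real.rpow_le_rpow_of_exponent_le (by linarith) (by linarith)
          _ = X := Real.rpow_one X
      have h10 : 0 ≤ (1 + Real.log X) ^ e.lo := Real.rpow_nonneg (by linarith) _
      have h9 := mul_le_mul_of_nonneg_left (mul_le_mul_of_nonneg_right h8 h10) hCl.le
      linarith
    have hmain : ∑ i ∈ B, e.w i * (X / e.D i) = X * ∑ i ∈ B, e.w i / (e.D i : ℝ) := by
      rw [Finset.mul_sum]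
      refine Finset.sum_congr rfl fun i _ => ?_
      ring
    have hsum : ∑ i ∈ T, e.N i (X / e.D i) =
        X * ∑ i ∈ B, e.w i / (e.D i : ℝ) +
        (∑ i ∈ B, (e.N i (X / e.D i) - e.w i * (X / e.D i)) +
        ∑ i ∈ T.filter (fun i => ¬ Y0 X ≤ X / e.D i), e.N i (X / e.D i)) := by
      rw [← Finset.sum_filter_add_sum_filter_not T (fun i => Y0 X ≤ X / e.D i), hBT,
        Finset.sum_sub_distrib, hmain]
      ring
    have hden : 0 < X * Real.log X := by positivity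
    have hdiff : (∑ i ∈ T, e.N i (X / e.D i)) / (X * Real.log X) -
        (∑ i ∈ B, e.w i / (e.D i : ℝ)) / Real.log X =
        (∑ i ∈ B, (e.N i (X / e.D i) - e.w i * (X / e.D i)) +
        ∑ i ∈ T.filter (fun i => ¬ Y0 X ≤ X / e.D i), e.N i (X / e.D i)) / (X * Real.log X) := by
      rw [hsum]
      field_simp
      ring
    rw [Real.norm_eq_abs, hdiff, abs_div, abs_of_pos hden, div_le_iff₀ hden]
    have hr : (Ct * ((1 + Real.log X) ^ e.lo * (1 + Real.log (Y0 X)) ^ 3 / Real.log X) +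
        (Cl + Cm) * ((1 + Real.log X) ^ e.lo / Real.log X)) * (X * Real.log X) =
        Ct * (X * (1 + Real.log X) ^ e.lo * (1 + Real.log (Y0 X)) ^ 3) +
        (Cl * (X * (1 + Real.log X) ^ e.lo) + Cm * (X * (1 + Real.log X) ^ e.lo)) := by
      field_simp
    rw [hr]
    refine (abs_add_le _ _).trans ?_
    rw [abs_of_nonneg sa0]
    linarith
  have h := key.add (el_main e)
  rw [zero_add] at h
  refine h.congr fun X => ?_
  ring

end H67.AQ
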