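import Pool.Agent.H67.AQ.Ndb
import Pool.Agent.H38.EN.Adi
import Pool.Agent.H38.EN.Akv
import Pool.Agent.H38.AS.QNk
import Pool.Agent.H63.MC.CFin

/-!
# AQ (MP_b39724_nt), end of case B: the number of quartic `A_4`-extensions from the chapters (complete, proved)

`fnb`: pattern `afin`, `amain` in H38/EN/Fin.lean and `sfin` in H38/SE/Fin.lean.
-/

set_option autoImplicit false

open scoped NumberField Classical
open IsDedekindDomain H38.ML H63.MA H48.KV Filter Topology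
open H48.T3 hiding Ch

noncomputable section

namespace H67.AQ

variable {K : IntermediateField ℚ QBar} [NumberField K]

theorem fnb (k : KV (alternatingGroup (Fin 4))) (hk : ∀ g, k.pi g = 1 → g ∈ k.V)
    {S : Finset (Pl K)} {Q : DP K QBar} (hW : WLog Q S 1)
    (h1 : H57.LI.LI1 K QBar (mS S)) (h2 : H57.LI.LI2 K QBar (mS S)) (hfb : FBS k Q S)
    (hm : MS3 S Q) (hL : LF3 S Q) (hS2 : ∀ v : Pl K, Above 2 v → v ∈ S)
    (hS3 : ∀ v : Pl K, Above 3 v → v ∈ S)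
    (Am : (Gal(QBar/K) →* Multiplicative (ZMod 3)) → ℝ) (h3 : LA3 S Q Am) (h4 : LA4 S Q Am)
    (h5 : LA5 S Q Am) (hne : (H38.MT.Ch K).Nonempty) :
    ∃ C : ℝ, 0 < C ∧ ∃ k : ℝ → ℕ,
      (∀ B : ℝ, Spec.nK K QBar (alternatingGroup (Fin 4)) B = (k B : ℕ∞)) ∧
      Tendsto (fun B : ℝ => (k B : ℝ) / (B ^ (1 / (2 : ℝ)) * Real.log B)) atTop (𝓝 C) := by
  obtain ⟨ds, hds, hrel⟩ := H38.EN.adi k hk S hS2 hS3 Q (0 : Fin 4)
  obtain ⟨⟨Df, hDf⟩, hfin, L, hL0, ⟨d₀, hd₀⟩, hlim⟩ := ndb k hW h1 h2 hfb hm hL hS2 hS3 Am h3 h4 h5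
    hne ds hds
  obtain ⟨CS, hCS⟩ : ∃ CS : ℝ → Set (Gal(QBar/K) →* alternatingGroup (Fin 4)), ∀ B, CS B =
    {φ : Gal(QBar/K) →* alternatingGroup (Fin 4) | FT φ ∧
      Function.Surjective φ ∧ (H38.ML.relDisc K (fieldOf (0 : Fin 4) φ) : ℝ) ≤ B} :=
    ⟨_, fun _ => rfl⟩
  have hmem : ∀ B φ, φ ∈ CS B ↔ FT φ ∧ Function.Surjective φ ∧
      (H38.ML.relDisc K (fieldOf (0 : Fin 4) φ) : ℝ) ≤ B := by
    intro B φ
    rw [hCS]
    rfl
  have hkey : ∀ B : ℝ, 0 ≤ B → ∀ d : ℕ, 0 < d → ∀ φ,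
      φ ∈ H38.EN.ND k Q S ds d ((B / d) ^ (1 / (2 : ℝ))) ↔ φ ∈ CS B ∧ ds φ = d := by
    intro B hB d hd φ
    have hd' : (0 : ℝ) < d := by exact_mod_cast hd
    have h3 : ∀ t : ℝ, 0 ≤ t → (t ≤ (B / d) ^ (1 / (2 : ℝ)) ↔ (d : ℝ) * t ^ 2 ≤ B) := by
      intro t ht
      rw [← Real.sqrt_eq_rpow, Real.le_sqrt ht (div_nonneg hB hd'.le), le_div_iff₀ hd', mul_comm]
    constructor
    · rintro ⟨h4, h5, h6, h7⟩
      refine ⟨(hmem B φ).2 ⟨h4, h5, ?_⟩, h6⟩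
      rw [(hrel φ h4 h5).2, h6]
      refine (h3 _ ?_).1 h7
      exact mul_nonneg (zero_le_one.trans (one_le_nr _)) (zero_le_one.trans (one_le_nr _))
    · rintro ⟨h4, h6⟩
      obtain ⟨h4, h5, h7⟩ := (hmem B φ).1 h4
      refine ⟨h4, h5, h6, ?_⟩
      rw [(hrel φ h4 h5).2, h6] at h7
      refine (h3 _ ?_).2 h7
      exact mul_nonneg (zero_le_one.trans (one_le_nr _)) (zero_le_one.trans (one_le_nr _))
  obtain ⟨D', hD'⟩ : ∃ D' : Finset ℕ, D' = Df.filter fun d => 0 < d := ⟨_, rfl⟩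
  have hD'p : ∀ d ∈ D', 0 < d := fun d hd => by
    rw [hD'] at hd
    exact (Finset.mem_filter.1 hd).2
  have hD'r : ∀ d ∈ D', (0 : ℝ) < d := fun d hd => by exact_mod_cast hD'p d hd
  have hDφ : ∀ φ, FT φ → Function.Surjective φ → ds φ ∈ D' := fun φ h4 h5 => by
    rw [hD']
    exact Finset.mem_filter.2 ⟨hDf φ h4 h5, (hrel φ h4 h5).1⟩
  have hfin0 : ∀ B, 0 ≤ B → (CS B).Finite := by
    intro B hB
    have h3 : (⋃ d ∈ D', H38.EN.ND k Q S ds d ((B / d) ^ (1 / (2 : ℝ)))).Finite :=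
      Set.Finite.biUnion D'.finite_toSet fun d _ => hfin d _
    refine h3.subset fun φ hφ => ?_
    obtain ⟨h4, h5, h7⟩ := (hmem B φ).1 hφ
    exact Set.mem_biUnion (hDφ φ h4 h5) ((hkey B hB (ds φ) (hrel φ h4 h5).1 φ).2 ⟨hφ, rfl⟩)
  have hfinB : ∀ B, (CS B).Finite := by
    intro B
    refine (hfin0 (max B 0) (le_max_right _ _)).subset fun φ hφ => ?_
    rw [hmem] at hφ ⊢
    exact ⟨hφ.1, hφ.2.1, hφ.2.2.trans (le_max_left _ _)⟩
  have hsum : ∀ B : ℝ, 0 ≤ B → ((CS B).ncard : ℝ) =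
      ∑ d ∈ D', ((H38.EN.ND k Q S ds d ((B / d) ^ (1 / (2 : ℝ)))).ncard : ℝ) := by
    intro B hB
    rw [Set.ncard_eq_toFinset_card _ (hfinB B), Finset.card_eq_sum_card_fiberwise
      (f := ds) (t := D') fun φ hφ => by
        obtain ⟨h4, h5, -⟩ := (hmem B φ).1 ((hfinB B).mem_toFinset.1 hφ)
        exact hDφ φ h4 h5]
    push_cast
    refine Finset.sum_congr rfl fun d hd => ?_
    congr 1
    rw [← Set.ncard_coe_finset]
    congr 1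
    ext φ
    rw [hkey B hB d (hD'p d hd) φ]
    simp
  have hlim1 : ∀ d, Tendsto (fun X : ℝ => ((H38.EN.ND k Q S ds d X).ncard : ℝ) /
      (X * Real.log X ^ 1)) atTop (𝓝 (L d)) := by
    intro d
    simp only [pow_one]
    exact hlim d
  have hlim2 := tendsto_finsetSum D' fun d hd => cfin_lim
    (fun X : ℝ => ((H38.EN.ND k Q S ds d X).ncard : ℝ)) (L d) 1 (hlim1 d) 2 two_pos (d : ℝ)
    (hD'r d hd)
  obtain ⟨c, hc⟩ : ∃ c : ℝ,
      c = ∑ d ∈ D', L d * ((d : ℝ) ^ (-(1 / (2 : ℝ))) * (1 / (2 : ℝ)) ^ 1) := ⟨_, rfl⟩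
  rw [← hc] at hlim2
  -- positivity
  have hd₀D : d₀ ∈ D' := by
    by_contra h6
    have h7 : ∀ X : ℝ, H38.EN.ND k Q S ds d₀ X = ∅ := by
      intro X
      rw [Set.eq_empty_iff_forall_notMem]
      rintro φ ⟨g1, g2, g3, -⟩
      apply h6
      rw [← g3]
      exact hDφ φ g1 g2
    have h8 := hlim d₀
    simp only [h7, Set.ncard_empty, Nat.cast_zero, zero_div] at h8
    have h9 := tendsto_nhds_unique h8 tendsto_const_nhds
    rw [h9] at hd₀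
    exact lt_irrefl _ hd₀
  have hterm : ∀ d ∈ D', 0 ≤ L d * ((d : ℝ) ^ (-(1 / (2 : ℝ))) * (1 / (2 : ℝ)) ^ 1) := by
    intro d hd
    exact mul_nonneg (hL0 d) (mul_nonneg (Real.rpow_nonneg (hD'r d hd).le _) (by norm_num))
  have hc0 : 0 < c := by
    rw [hc]
    refine lt_of_lt_of_le ?_ (Finset.single_le_sum (f := fun d : ℕ =>
      L d * ((d : ℝ) ^ (-(1 / (2 : ℝ))) * (1 / (2 : ℝ)) ^ 1)) (fun d hd => hterm d hd) hd₀D)
    exact mul_pos hd₀ (mul_pos (Real.rpow_pos_of_pos (hD'r d₀ hd₀D) _) (by norm_num))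
  have hcl : Tendsto (fun B : ℝ => ((CS B).ncard : ℝ) / (B ^ (1 / (2 : ℝ)) * Real.log B)) atTop
      (𝓝 c) := by
    refine hlim2.congr' ?_
    filter_upwards [eventually_ge_atTop (0 : ℝ)] with B hB
    rw [hsum B hB, Finset.sum_div]
    simp only [pow_one]
  obtain ⟨c₀, hc₀, hnk⟩ := H38.AS.nk2 (alternatingGroup (Fin 4)) H38.WM.a4_trans
  have hkk : ∀ B : ℝ, ∃ k' : ℕ, Spec.nK K QBar (alternatingGroup (Fin 4)) B = (k' : ℕ∞) ∧
      k' * c₀ = (CS B).ncard := by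
    intro B
    have h6 := hnk K inferInstance 0 B (by rw [← hCS]; exact hfinB B)
    rw [← hCS] at h6
    exact h6
  choose k' hk1 hk2 using hkk
  have hc₀R : (0 : ℝ) < (c₀ : ℝ) := by exact_mod_cast hc₀
  refine ⟨c / (c₀ : ℝ), div_pos hc0 hc₀R, k', hk1, (hcl.div_const (c₀ : ℝ)).congr fun B => ?_⟩
  rw [← hk2 B]
  push_cast
  field_simp

end H67.AQ
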