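import Pool.Agent.H38.WM.Def2

/-!
# AQ (MP_b39724_nt), chapter W: the border between the core (W2#, helper88, helper12) and the reduction (helper67). Definitions (complete)

`CoreSharp2 τ`: `H38.WM.CoreBound2 τ` (Def2.lean) with the sharp bound `C R (1 + log R) ^ (1 - δ)`; compare `H48.T3.CoreSharp`.
`H67.AQ.wlog1` (Wsm.lean): `No3 K` and `CoreSharp2 τ` for all `M, τ, ω` with `Om τ ω` imply `WLog Q S 1` for all `S, Q`.
-/

set_option autoImplicit false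

open scoped NumberField
open IsDedekindDomain NumberField H38.ML H63.MA H38.WM

noncomputable section

namespace H67.AQ

variable {K : IntermediateField ℚ QBar} [NumberField K] {M : IntermediateField K QBar}
  [NumberField M]

/-- THE CORE THEOREM of W2#: the pairs `(u, a)` up to squares are at most `C R (1 + log R)^(1 - δ)` in number -/
def CoreSharp2 (τ : Gal(M/K)) : Prop :=
  ∀ (m : ℕ) (C₀ : ℝ), m ≠ 0 → 6 ∣ m → ∃ C δ : ℝ, 0 < δ ∧ ∀ R : ℝ, 1 ≤ R →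
    ∀ S : Finset (𝓞 M × QBar),
      (∀ x ∈ S, AdmG M m C₀ x.1 (τ • x.1) ∧ Cf τ (Fl2 τ x.1) x.1 ∧
        (|(Algebra.norm ℤ x.1 : ℤ)| : ℝ) ≤ R ∧
        ∃ a' : (Fl2 τ x.1)ˣ, ((a' : Fl2 τ x.1) : QBar) = x.2 ∧ Sel K (Fl2 τ x.1) a') →
      (∀ u a b, (u, a) ∈ S → (u, b) ∈ S → (∃ c ∈ Fl2 τ u, a = b * c ^ 2) → a = b) →
      (S.card : ℝ) ≤ C * R * (1 + Real.log R) ^ (1 - δ)

end H67.AQ
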