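import Pool.Agent.H67.AQ.Wdf
import Pool.Agent.H67.AQ.Defs
import Pool.Agent.H38.AQ.Sel
import Pool.Agent.H38.EN.Mul
import Pool.Agent.H38.MT.BA
import Pool.Agent.H38.WM.Kc2
import Pool.Agent.H38.WM.CfE
import Pool.Agent.H38.WM.CfU
import Pool.Agent.H38.WM.NrG
import Pool.Agent.H38.WM.RmG
import Pool.Agent.H38.WM.Spl
import Pool.Agent.H38.WM.Fin2

/-!
# AQ (MP_b39724_nt), chapter W: `WLog Q S 1` from `CoreSharp2` (complete, proved)

Pattern: `sms` (H38/EN/Sms.lean) and `dt2` (H38/WM/Dt2.lean).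
-/

set_option autoImplicit false

open scoped NumberField Classical
open IsDedekindDomain NumberField H38.ML H63.MA H38.WM H48.KV

noncomputable section

namespace H67.AQ

private theorem ws_fin {L : Type} [Field L] [NumberField L] (x : 𝓞 L) (hx : x ≠ 0) :
    {l : Pl L | x ∈ l.asIdeal}.Finite := by
  have h1 : Ideal.span {x} ≠ 0 := by
    rw [Ideal.zero_eq_bot, Ne, Ideal.span_singleton_eq_bot]
    exact hx
  refine (Ideal.finite_factors h1).subset fun l hl => ?_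
  change l.asIdeal ∣ Ideal.span {x}
  rw [Ideal.dvd_span_singleton]
  exact hl

variable {K : IntermediateField ℚ QBar} [NumberField K] {M : IntermediateField K QBar}
  [NumberField M]

/-- the Selmer classes of the field of `u` -/
private abbrev SC (τ : Gal(M/K)) (u : 𝓞 M) : Type :=
  Quot fun a b : {a : (Fl2 τ u)ˣ // Sel K (Fl2 τ u) a} => ∃ c : (Fl2 τ u)ˣ, a.1 = b.1 * c ^ 2

private theorem sc_fin (τ : Gal(M/K)) (u : 𝓞 M) : Finite (SC τ u) := H38.AQ.sel_all K (Fl2 τ u)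

/-- the number of pairs over a finite set of `u` -/
private theorem sc_sum (τ : Gal(M/K)) (m : ℕ) (C₀ : ℝ) (C δ R : ℝ)
    (h : ∀ S : Finset (𝓞 M × QBar),
      (∀ x ∈ S, AdmG M m C₀ x.1 (τ • x.1) ∧ Cf τ (Fl2 τ x.1) x.1 ∧
        (|(Algebra.norm ℤ x.1 : ℤ)| : ℝ) ≤ R ∧
        ∃ a' : (Fl2 τ x.1)ˣ, ((a' : Fl2 τ x.1) : QBar) = x.2 ∧ Sel K (Fl2 τ x.1) a') →
      (∀ u a b, (u, a) ∈ S → (u, b) ∈ S → (∃ c ∈ Fl2 τ u, a = b * c ^ 2) → a = b) →
      (S.card : ℝ) ≤ C * R * (1 + Real.log R) ^ (1 - δ))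
    (U : Finset (𝓞 M)) (hU : ∀ u ∈ U, AdmG M m C₀ u (τ • u) ∧ Cf τ (Fl2 τ u) u ∧
      (|(Algebra.norm ℤ u : ℤ)| : ℝ) ≤ R) :
    ∑ u ∈ U, (Nat.card (SC τ u) : ℝ) ≤ C * R * (1 + Real.log R) ^ (1 - δ) := by
  have hfinq : ∀ u : U, Finite (SC τ u.1) := fun u => sc_fin τ u.1
  let I : Type := Σ u : U, SC τ u.1
  have hfinI : Finite I := inferInstance
  have hftI : Fintype I := Fintype.ofFinite I
  let f : I → 𝓞 M × QBar := fun i => (i.1.1, (((Quot.out i.2).1 : Fl2 τ i.1.1) : QBar))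
  have hkey : ∀ i j : I, i.1.1 = j.1.1 →
      (∃ c ∈ Fl2 τ i.1.1, (f i).2 = (f j).2 * c ^ 2) → i = j := by
    rintro ⟨u, q⟩ ⟨u', q'⟩ h1 h3
    obtain rfl : u = u' := Subtype.ext h1
    obtain ⟨c, hcF, hcc⟩ := h3
    have h4 : (((Quot.out q).1 : Fl2 τ u.1) : QBar) =
        (((Quot.out q').1 : Fl2 τ u.1) : QBar) * c ^ 2 := hcc
    have hc0 : c ≠ 0 := by
      rintro rfl
      rw [zero_pow (by norm_num), mul_zero] at h4
      exact (Quot.out q).1.ne_zero (Subtype.ext h4)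
    have hc0' : (⟨c, hcF⟩ : Fl2 τ u.1) ≠ 0 := fun h => hc0 (congrArg Subtype.val h)
    have h5 : (Quot.out q).1 = (Quot.out q').1 *
        (Units.mk0 (⟨c, hcF⟩ : Fl2 τ u.1) hc0') ^ 2 := by
      apply Units.ext
      apply Subtype.ext
      rw [Units.val_mul, Units.val_pow_eq_pow_val, Units.val_mk0]
      exact h4
    have h6 : q = q' := by
      rw [← Quot.out_eq q, ← Quot.out_eq q']
      exact Quot.sound ⟨_, h5⟩
    rw [h6]
  have hinj : Function.Injective f := by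
    intro i j hij
    exact hkey i j (congrArg Prod.fst hij) ⟨1, one_mem _, by
      rw [congrArg Prod.snd hij, one_pow, mul_one]⟩
  have hbd := h (Finset.univ.image f) (by
    intro x hx
    obtain ⟨i, -, rfl⟩ := Finset.mem_image.1 hx
    obtain ⟨h1, h2, h3⟩ := hU i.1.1 i.1.2
    exact ⟨h1, h2, h3, (Quot.out i.2).1, rfl, (Quot.out i.2).2⟩) (by
    intro u' a b ha hb hab
    obtain ⟨i, -, hi'⟩ := Finset.mem_image.1 ha
    obtain ⟨j, -, hj'⟩ := Finset.mem_image.1 hb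
    have hiu : i.1.1 = u' := congrArg Prod.fst hi'
    have hia : (f i).2 = a := congrArg Prod.snd hi'
    have hju : j.1.1 = u' := congrArg Prod.fst hj'
    have hjb : (f j).2 = b := congrArg Prod.snd hj'
    have h1 : i = j := hkey i j (by rw [hiu, hju]) (by
      rw [hiu, hia, hjb]
      exact hab)
    rw [← hia, ← hjb, h1])
  rw [Finset.card_image_of_injective _ hinj, Finset.card_univ, ← Nat.card_eq_fintype_card] at hbd
  have hcardI : Nat.card I = ∑ u : U, Nat.card (SC τ u.1) := Nat.card_sigma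
  have hsum : ∑ u ∈ U, (Nat.card (SC τ u) : ℝ) = (Nat.card I : ℝ) := by
    rw [hcardI, Nat.cast_sum]
    exact (Finset.sum_coe_sort U fun u => (Nat.card (SC τ u) : ℝ)).symm
  rw [hsum]
  exact hbd

/-- the generator of a character -/
private theorem ws_dat (τ : Gal(M/K)) (ω : M) (H : Om τ ω) (Q : DP K QBar) (S : Finset (Pl K)) :
    ∃ (m : ℕ) (C₀ C₁ : ℝ), m ≠ 0 ∧ 6 ∣ m ∧ 0 < C₁ ∧ ∀ χ ∈ H38.MT.Ch K, ∃ u : 𝓞 M,
      AdmG M m C₀ u (τ • u) ∧ Cf τ (Fl2 τ u) u ∧ FX χ = Fl2 τ u ∧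
      (|(Algebra.norm ℤ u : ℤ)| : ℝ) ≤ C₁ * H38.MT.cf Q S χ := by
  obtain ⟨m, C₀, hm, h6, hex⟩ := kc2 τ ω H
  obtain ⟨C₁, hC₁, hnr⟩ := nrG M m C₀ hm
  refine ⟨m, C₀, C₁ * nr S, hm, h6, mul_pos hC₁ (by linarith [one_le_nr S]), ?_⟩
  rintro χ ⟨hft, hs⟩
  obtain ⟨u, y, hA, hy, hχ, hχr⟩ := hex χ hft
  obtain ⟨F, hCf, hFfix⟩ := cfE τ χ hft hs u hχr
  have hFl : Fl2 τ u = F := cfFl τ ω H F u hCf
  subst hFl
  have hgal : IsGalois K QBar := IsAlgClosure.isGalois K QBar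
  have hFX : FX χ = Fl2 τ u := by
    have h1 : (Fl2 τ u).fixingSubgroup = χ.ker := by
      ext σ
      rw [hFfix σ, MonoidHom.mem_ker]
    unfold FX
    rw [← h1]
    exact InfiniteGalois.fixedField_fixingSubgroup (Fl2 τ u)
  refine ⟨u, hA, hCf, hFX, ?_⟩
  obtain ⟨TM, hTM⟩ : ∃ TM : Finset (Pl M), ∀ l, l ∈ TM ↔
      u ∈ l.asIdeal ∧ (m : 𝓞 M) ∉ l.asIdeal :=
    ⟨(ws_fin u hA.u0).toFinset.filter fun l => (m : 𝓞 M) ∉ l.asIdeal, fun l => by
      rw [Finset.mem_filter, Set.Finite.mem_toFinset]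
      rfl⟩
  have hb : ∀ l : Pl M, ∃ p : Pl K, Over l p := fun l => exists_below l
  choose b hb using hb
  have hinj : Set.InjOn b (TM : Set (Pl M)) := by
    intro l hl l' hl' he
    have h1 := (hTM l).1 hl
    have h2 := (hTM l').1 hl'
    refine spl_inj τ ω H u l l' (b l) (hb l) ?_ h1.1 h2.1 (hA.good l h1.2)
    rw [he]
    exact hb l'
  have h1 := hnr u (τ • u) hA TM fun l hl hu => (hTM l).2 ⟨hu, hl⟩
  have h2 : ∏ l ∈ TM, (nm l : ℝ) ≤ nr (TM.image b) := by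
    unfold nr
    rw [Finset.prod_image hinj]
    refine Finset.prod_le_prod (fun l _ => Nat.cast_nonneg _) fun l hl => ?_
    have h2 := (hTM l).1 hl
    exact_mod_cast spl_nm τ ω H u l (b l) (hb l) h2.1 (hA.good l h2.2)
  have h3 : TM.image b ⊆ S ∪ H38.MT.rf Q S χ := by
    intro p hp
    obtain ⟨l, hl, rfl⟩ := Finset.mem_image.1 hp
    have h4 := (hTM l).1 hl
    obtain ⟨t, ht, hne⟩ := rmG τ ω H Q m C₀ h6 χ u y hA hy hχ l (b l) (hb l) h4.2 h4.1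
    rw [Finset.mem_union, H38.MT.ba_mem Q S hft]
    by_cases h5 : b l ∈ S
    · exact Or.inl h5
    · exact Or.inr ⟨h5, t, ht, hne⟩
  have h4 : nr (S ∪ H38.MT.rf Q S χ) ≤ nr S * H38.MT.cf Q S χ := by
    have h5 : S ∪ H38.MT.rf Q S χ = S ∪ (H38.MT.rf Q S χ \ S) := by
      rw [Finset.union_sdiff_self_eq_union]
    rw [h5, nr_union Finset.disjoint_sdiff]
    refine mul_le_mul_of_nonneg_left (nr_mono Finset.sdiff_subset) (by linarith [one_le_nr S])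
  calc (|(Algebra.norm ℤ u : ℤ)| : ℝ) ≤ C₁ * ∏ l ∈ TM, (nm l : ℝ) := h1
    _ ≤ C₁ * (nr S * H38.MT.cf Q S χ) :=
        mul_le_mul_of_nonneg_left ((h2.trans (nr_mono h3)).trans h4) hC₁.le
    _ = C₁ * nr S * H38.MT.cf Q S χ := by ring

theorem wlog_of (τ : Gal(M/K)) (ω : M) (H : Om τ ω) (hc : CoreSharp2 τ) (Q : DP K QBar)
    (S : Finset (Pl K)) : WLog Q S 1 := by
  obtain ⟨m, C₀, C₁, hm, h6, hC₁, hdat⟩ := ws_dat τ ω H Q S
  obtain ⟨C₂, δ, hδ, hcs⟩ := hc m C₀ hm h6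
  obtain ⟨C₃, hC₃, hC₃'⟩ : ∃ C₃ : ℝ, 1 ≤ C₃ ∧ C₁ ≤ C₃ := ⟨max 1 C₁, le_max_left _ _, le_max_right _ _⟩
  have hlC₃ : 0 ≤ Real.log C₃ := Real.log_nonneg hC₃
  choose! u hA hCf hFX hN using hdat
  obtain ⟨C, hC⟩ : ∃ C : ℝ, C = max 1 (3 * (|C₂| * C₃ * (1 + Real.log C₃) ^ (1 - min δ 1))) :=
    ⟨_, rfl⟩
  have hC1 : 1 ≤ C := by rw [hC]; exact le_max_left _ _
  have main : ∀ X : ℝ, 1 ≤ X → ∀ T : Finset (Gal(QBar/K) →* Multiplicative (ZMod 3)),
      (∀ χ ∈ T, χ ∈ H38.MT.Ch K ∧ H38.MT.cf Q S χ ≤ X) →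
      ∑ χ ∈ T, (selg (FX χ) : ℝ) ≤ C * X * (1 + Real.log X) ^ (1 - min δ 1) := by
    intro X hX T hT
    have hR1 : 1 ≤ C₃ * X := by nlinarith
    have hNb : ∀ χ ∈ T, (|(Algebra.norm ℤ (u χ) : ℤ)| : ℝ) ≤ C₃ * X := by
      intro χ hχ
      have h1 := hN χ (hT χ hχ).1
      have h2 := (hT χ hχ).2
      have h3 : 1 ≤ H38.MT.cf Q S χ := one_le_nr _
      have h4 : C₁ * H38.MT.cf Q S χ ≤ C₃ * X := mul_le_mul hC₃' h2 (by linarith) (by linarith)
      exact h1.trans h4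
    have hsum := sc_sum τ m C₀ C₂ δ (C₃ * X) (hcs (C₃ * X) hR1) (T.image u) (by
      intro v hv
      obtain ⟨χ, hχ, rfl⟩ := Finset.mem_image.1 hv
      exact ⟨hA χ (hT χ hχ).1, hCf χ (hT χ hχ).1, hNb χ hχ⟩)
    have hsel : ∀ χ ∈ T, (selg (FX χ) : ℝ) = (Nat.card (SC τ (u χ)) : ℝ) := by
      intro χ hχ
      rw [hFX χ (hT χ hχ).1]
      unfold selg
      rw [dif_pos (inferInstance : NumberField (Fl2 τ (u χ)))]
      rfl
    have h3 : ∑ χ ∈ T, (selg (FX χ) : ℝ) ≤ 3 * ∑ v ∈ T.image u, (Nat.card (SC τ v) : ℝ) := by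
      rw [Finset.sum_congr rfl hsel, ← Finset.sum_fiberwise_of_maps_to
        (fun χ hχ => Finset.mem_image_of_mem u hχ), Finset.mul_sum]
      refine Finset.sum_le_sum fun v _ => ?_
      have h4 : ∑ χ ∈ T with u χ = v, (Nat.card (SC τ (u χ)) : ℝ) =
          ((T.filter fun χ => u χ = v).card : ℝ) * (Nat.card (SC τ v) : ℝ) := by
        rw [← nsmul_eq_mul, ← Finset.sum_const]
        refine Finset.sum_congr rfl fun χ hχ => ?_
        rw [(Finset.mem_filter.1 hχ).2]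
      rw [h4]
      have h5 : (T.filter fun χ => u χ = v).card ≤ 3 :=
        H38.EN.mul3 (Fl2 τ v) _ fun χ hχ => by
          obtain ⟨h6, h7⟩ := Finset.mem_filter.1 hχ
          refine ⟨(hT χ h6).1, ?_⟩
          rw [hFX χ (hT χ h6).1, h7]
      exact mul_le_mul_of_nonneg_right (by exact_mod_cast h5) (Nat.cast_nonneg _)
    have hlX : 0 ≤ Real.log X := Real.log_nonneg hX
    have hlog : Real.log (C₃ * X) = Real.log C₃ + Real.log X :=
      Real.log_mul (by linarith) (by linarith)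
    have hL1 : 1 ≤ 1 + Real.log (C₃ * X) := by linarith
    have hL2 : 1 + Real.log (C₃ * X) ≤ (1 + Real.log C₃) * (1 + Real.log X) := by
      rw [hlog]
      nlinarith [mul_nonneg hlC₃ hlX]
    have hexp : 1 - δ ≤ 1 - min δ 1 := by linarith [min_le_left δ 1]
    have hexp0 : 0 ≤ 1 - min δ 1 := by linarith [min_le_right δ 1]
    have hpw : (1 + Real.log (C₃ * X)) ^ (1 - δ) ≤
        (1 + Real.log C₃) ^ (1 - min δ 1) * (1 + Real.log X) ^ (1 - min δ 1) := by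
      rw [← Real.mul_rpow (by linarith) (by linarith)]
      exact (Real.rpow_le_rpow_of_exponent_le hL1 hexp).trans
        (Real.rpow_le_rpow (by linarith) hL2 hexp0)
    have hX0 : 0 ≤ C₃ * X := by linarith
    have hp1 : 0 ≤ (1 + Real.log C₃) ^ (1 - min δ 1) := Real.rpow_nonneg (by linarith) _
    have hp2 : 0 ≤ (1 + Real.log X) ^ (1 - min δ 1) := Real.rpow_nonneg (by linarith) _
    have hp3 : 0 ≤ (1 + Real.log (C₃ * X)) ^ (1 - δ) := Real.rpow_nonneg (by linarith) _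
    calc ∑ χ ∈ T, (selg (FX χ) : ℝ) ≤ 3 * ∑ v ∈ T.image u, (Nat.card (SC τ v) : ℝ) := h3
      _ ≤ 3 * (C₂ * (C₃ * X) * (1 + Real.log (C₃ * X)) ^ (1 - δ)) := by linarith
      _ ≤ 3 * (|C₂| * (C₃ * X) * (1 + Real.log (C₃ * X)) ^ (1 - δ)) := by
          gcongr
          exact le_abs_self C₂
      _ ≤ 3 * (|C₂| * (C₃ * X) *
            ((1 + Real.log C₃) ^ (1 - min δ 1) * (1 + Real.log X) ^ (1 - min δ 1))) := by
          gcongr
      _ = (3 * (|C₂| * C₃ * (1 + Real.log C₃) ^ (1 - min δ 1))) * X *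
            (1 + Real.log X) ^ (1 - min δ 1) := by ring
      _ ≤ C * X * (1 + Real.log X) ^ (1 - min δ 1) := by
          rw [hC]
          gcongr
          exact le_max_right _ _
  refine ⟨C, min δ 1, hC1, lt_min hδ one_pos, min_le_right _ _, fun X hX => ⟨?_, by
    rw [Nat.cast_one]
    exact main X hX⟩⟩
  by_contra hinf
  obtain ⟨T, hT, hcard⟩ := Set.Infinite.exists_subset_card_eq hinf
    (⌈C * X * (1 + Real.log X) ^ (1 - min δ 1)⌉₊ + 1)
  have h1 := main X hX T fun χ hχ => hT hχ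
  have h2 : (T.card : ℝ) ≤ ∑ χ ∈ T, (selg (FX χ) : ℝ) := by
    rw [Finset.cast_card]
    refine Finset.sum_le_sum fun χ hχ => ?_
    exact_mod_cast H38.AQ.selg_pos χ (hT hχ).1
  rw [hcard] at h2
  push_cast at h2
  have h3 := Nat.le_ceil (C * X * (1 + Real.log X) ^ (1 - min δ 1))
  linarith

/-- `WLog Q S 1` for all `S, Q` from the core theorem -/
theorem wlog1 (K : IntermediateField ℚ QBar) [NumberField K] (hK : No3 K)
    (hc : ∀ (M : IntermediateField K QBar) (_ : NumberField M) (τ : Gal(M/K)) (ω : M),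
      Om τ ω → CoreSharp2 τ) (S : Finset (Pl K)) (Q : DP K QBar) : WLog Q S 1 := by
  obtain ⟨M, hM, τ, ω, H⟩ := exM K hK
  exact wlog_of τ ω H (hc M hM τ ω H) Q S

end H67.AQ
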