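import Pool.Agent.H67.AQ.Asb
import Pool.Agent.H88.AQ.Fin
import Pool.Agent.H1.GS.Li12
import Pool.Agent.H1.GS.Icg
import Pool.Agent.H48.CR.Cr
import Pool.Agent.H32.AQ.La
import Pool.Agent.H38.AQ.Enda
import Pool.Agent.H97.AQ.Ms3

/-!
# AQ (MP_b39724_nt): Malle's conjecture for `A_4` in degree 4 over every number field (complete, proved)
-/

set_option autoImplicit false

open scoped NumberField Classical
open IsDedekindDomain H38.ML H63.MA H48.KV Filter Topology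
open H48.T3 hiding Ch

noncomputable section

namespace H67.AQ

/-- no primitive third root of unity in `K` -/
theorem a4_no3 (K : IntermediateField ℚ QBar) [NumberField K] (hK : No3 K) :
    Spec.indG (alternatingGroup (Fin 4)) = 2 ∧
    Spec.betaAll K QBar (alternatingGroup (Fin 4)) = 2 ∧
    (∀ B : ℝ, Spec.nK K QBar (alternatingGroup (Fin 4)) B ≠ ⊤) ∧
    ∃ C : ℝ, 0 < C ∧ Tendsto
      (fun B : ℝ => ((Spec.nK K QBar (alternatingGroup (Fin 4)) B).toNat : ℝ) /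
        (B ^ (1 / (2 : ℝ)) * Real.log B)) atTop (𝓝 C) := by
  obtain ⟨S₀, h⟩ := H97.AQ.ms3 hK
  exact a4b K hK (fun S Q => H88.AQ.w1 hK S Q) (fun S => H1.GS.li12 S)
    ⟨S₀, fun S hS Q => (h S hS Q).1⟩
    (fun S Q hS => H32.AQ.la S Q (H1.GS.icg _) (H48.CR.crc hK S hS Q))

/-- all number fields -/
theorem a4_every (K : IntermediateField ℚ QBar) (_ : NumberField K) :
    Spec.indG (alternatingGroup (Fin 4)) = 2 ∧
    ((∃ ω : K, IsPrimitiveRoot ω 3) → Spec.betaAll K QBar (alternatingGroup (Fin 4)) = 3) ∧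
    ((¬ ∃ ω : K, IsPrimitiveRoot ω 3) → Spec.betaAll K QBar (alternatingGroup (Fin 4)) = 2) ∧
    (∀ B : ℝ, Spec.nK K QBar (alternatingGroup (Fin 4)) B ≠ ⊤) ∧
    ∃ C : ℝ, 0 < C ∧ Tendsto
      (fun B : ℝ => ((Spec.nK K QBar (alternatingGroup (Fin 4)) B).toNat : ℝ) /
        (B ^ (1 / (2 : ℝ)) *
          Real.log B ^ (Spec.betaAll K QBar (alternatingGroup (Fin 4)) - 1))) atTop (𝓝 C) := by
  by_cases h : ∃ ω : K, IsPrimitiveRoot ω 3
  · obtain ⟨ω, hω⟩ := h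
    obtain ⟨h1, h2, h3, h4⟩ := H38.AQ.a4_three K ω hω
    refine ⟨h1, fun _ => h2, fun h => absurd ⟨ω, hω⟩ h, h3, ?_⟩
    rw [h2]
    exact h4
  · obtain ⟨h1, h2, h3, h4⟩ := a4_no3 K (fun ω hω => h ⟨ω, hω⟩)
    refine ⟨h1, fun h' => absurd h' h, fun _ => h2, h3, ?_⟩
    rw [h2]
    simpa using h4

end H67.AQ
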