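import Pool.Agent.H67.AQ.Elm
import Pool.Agent.H67.AQ.Cfn
import Pool.Agent.H67.AQ.Ddg
import Pool.Agent.H38.EN.Mul
import Pool.Agent.H38.EN.Fup
import Pool.Agent.H38.EN.Nds

/-!
# AQ (MP_b39724_nt), end of case B: the count for one value of `ds` (complete, proved)

`ndb`: from `WLog Q S 1`, `FBS`, `LI1`, `LI2`, `MS3` (only for the number of characters), `LF3`, `LA3`, `LA4`, `LA5`: the number of the surjective
homomorphisms with `ds φ = d` and `cf (k.pi ∘ φ) * nr (tf φ) ≤ X` is `~ L d * X log X`, with `L d > 0` for some `d`.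
-/

set_option autoImplicit false

open scoped NumberField Classical
open IsDedekindDomain H38.ML H63.MA H48.KV Filter Topology
open H48.T3 hiding Ch

noncomputable section

namespace H67.AQ

variable {K : IntermediateField ℚ QBar} [NumberField K] {G : Type} [Group G]

/-- the absolute values of the error terms -/
private def nF (Q : DP K QBar) (S : Finset (Pl K))
    (Am : (Gal(QBar/K) →* Multiplicative (ZMod 3)) → ℝ) :
    H57.LI.AP K QBar (mS S) ⊕ (Gal(QBar/K) →* Multiplicative (ZMod 3)) → ℝ → ℝ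
  | Sum.inl x, Y => |∑ q ∈ IN K Y, x.lq q|
  | Sum.inr χ, Y => |H38.MT.mq Q S χ Y - Am χ * Y|

private theorem nF0 (Q : DP K QBar) (S : Finset (Pl K))
    (Am : (Gal(QBar/K) →* Multiplicative (ZMod 3)) → ℝ)
    (x : H57.LI.AP K QBar (mS S) ⊕ (Gal(QBar/K) →* Multiplicative (ZMod 3))) (Y : ℝ) :
    0 ≤ nF Q S Am x Y := by
  cases x <;> exact abs_nonneg _

private theorem n_exc {S : Finset (Pl K)} {Q : DP K QBar}
    {Am : (Gal(QBar/K) →* Multiplicative (ZMod 3)) → ℝ} (h2 : H57.LI.LI2 K QBar (mS S))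
    (h4 : LA4 S Q Am) (A : ℕ) (B : ℕ) (ε : ℝ) (hε : 0 < ε) :
    ∃ R₀ : ℝ, 3 ≤ R₀ ∧ ∀ R : ℝ, R₀ ≤ R →
      ∀ J : Set (H57.LI.AP K QBar (mS S) ⊕ (Gal(QBar/K) →* Multiplicative (ZMod 3))),
      (∀ x, Sum.inl x ∈ J → x.D ≤ R ^ A) →
      (∀ χ, Sum.inr χ ∈ J → χ ∈ H38.MT.Ch K ∧ H38.MT.cf Q S χ ≤ R) →
      (∀ x ∈ J, ∃ Y : ℝ, Real.exp (Real.log (Real.log R) ^ 3) ≤ Y ∧
        Y / Real.log R ^ B < nF Q S Am x Y) →
      J.Finite ∧ (J.ncard : ℝ) ≤ R ^ ε := by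
  obtain ⟨R₁, h3R, hR₁⟩ := h2 A B (ε / 2) (by linarith)
  obtain ⟨R₂, -, hR₂⟩ := h4 1 B (ε / 2) (by linarith)
  refine ⟨max (max R₁ R₂) ((2 : ℝ) ^ (2 / ε)), h3R.trans ((le_max_left _ _).trans (le_max_left _ _)),
    fun R hR J hJ1 hJ2 hJ => ?_⟩
  have hR1 : R₁ ≤ R := ((le_max_left _ _).trans (le_max_left _ _)).trans hR
  have hR2 : R₂ ≤ R := ((le_max_right _ _).trans (le_max_left _ _)).trans hR
  have hR3 : (2 : ℝ) ^ (2 / ε) ≤ R := (le_max_right _ _).trans hR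
  obtain ⟨f1, c1⟩ := hR₁ R hR1 {x | Sum.inl x ∈ J} (fun x hx => ⟨hJ1 x hx, hJ _ hx⟩)
  obtain ⟨f2, c2⟩ := hR₂ R hR2 {x | Sum.inr x ∈ J} (fun x hx => by
    obtain ⟨h5, h6⟩ := hJ2 _ hx
    exact ⟨h5, by rw [pow_one]; exact h6, hJ _ hx⟩)
  have hJe : J = Sum.inl '' {x | Sum.inl x ∈ J} ∪ Sum.inr '' {x | Sum.inr x ∈ J} := by
    ext x
    constructor
    · intro hx
      cases x with
      | inl x => exact Or.inl ⟨x, hx, rfl⟩
      | inr x => exact Or.inr ⟨x, hx, rfl⟩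
    · rintro (⟨y, hy, rfl⟩ | ⟨y, hy, rfl⟩)
      · exact hy
      · exact hy
  have hfin : J.Finite := by
    rw [hJe]
    exact (f1.image _).union (f2.image _)
  refine ⟨hfin, ?_⟩
  have hR0 : 0 < R := by linarith
  have h7 : (J.ncard : ℝ) ≤ R ^ (ε / 2) + R ^ (ε / 2) := by
    have h8 : J.ncard ≤ {x | Sum.inl x ∈ J}.ncard + {x | Sum.inr x ∈ J}.ncard := by
      calc J.ncard = (Sum.inl '' {x | Sum.inl x ∈ J} ∪ Sum.inr '' {x | Sum.inr x ∈ J}).ncard := by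
            rw [← hJe]
        _ ≤ (Sum.inl '' {x | Sum.inl x ∈ J}).ncard + (Sum.inr '' {x | Sum.inr x ∈ J}).ncard :=
            Set.ncard_union_le _ _
        _ ≤ _ := add_le_add (Set.ncard_image_le f1) (Set.ncard_image_le f2)
    have h9 : (J.ncard : ℝ) ≤ ({x | Sum.inl x ∈ J}.ncard : ℝ) + ({x | Sum.inr x ∈ J}.ncard : ℝ) := by
      exact_mod_cast h8
    linarith
  have h10 : (2 : ℝ) ≤ R ^ (ε / 2) := by
    have h11 := Real.rpow_le_rpow (by positivity) hR3 (by linarith : 0 ≤ ε / 2)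
    rw [← Real.rpow_mul (by norm_num)] at h11
    have h12 : 2 / ε * (ε / 2) = 1 := by
      field_simp
    rw [h12, Real.rpow_one] at h11
    exact h11
  have h13 : R ^ ε = R ^ (ε / 2) * R ^ (ε / 2) := by
    rw [← Real.rpow_add hR0]
    congr 1
    ring
  rw [h13]
  nlinarith

theorem ndb (k : KV G) {S : Finset (Pl K)} {Q : DP K QBar} (hW : WLog Q S 1)
    (h1 : H57.LI.LI1 K QBar (mS S)) (h2 : H57.LI.LI2 K QBar (mS S)) (hfb : FBS k Q S)
    (hm : MS3 S Q) (hL : LF3 S Q) (hS2 : ∀ v : Pl K, Above 2 v → v ∈ S)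
    (hS3 : ∀ v : Pl K, Above 3 v → v ∈ S)
    (Am : (Gal(QBar/K) →* Multiplicative (ZMod 3)) → ℝ) (h3 : LA3 S Q Am) (h4 : LA4 S Q Am)
    (h5 : LA5 S Q Am) (hne : (H38.MT.Ch K).Nonempty) (ds : (Gal(QBar/K) →* G) → ℕ)
    (hds : LocInv Q S ds) :
    (∃ Df : Finset ℕ, ∀ φ : Gal(QBar/K) →* G, FT φ → Function.Surjective φ → ds φ ∈ Df) ∧
    (∀ d X, (H38.EN.ND k Q S ds d X).Finite) ∧ ∃ L : ℕ → ℝ, (∀ d, 0 ≤ L d) ∧ (∃ d, 0 < L d) ∧
      ∀ d, Tendsto (fun X : ℝ => ((H38.EN.ND k Q S ds d X).ncard : ℝ) / (X * Real.log X)) atTop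
        (𝓝 (L d)) := by
  obtain ⟨hDf, C₀, W, hC₀, hWb, hWi, hWp, hfm⟩ := hfb ds hds
  refine ⟨hDf, ?_⟩
  obtain ⟨C₁, δ, hC₁, hδ0, hδ1, hsm⟩ := hW
  have hP : ∀ R : ℝ, {χ : Gal(QBar/K) →* Multiplicative (ZMod 3) | χ ∈ H38.MT.Ch K ∧
      H38.MT.cf Q S χ ≤ R}.Finite := fun R =>
    ((hsm (max R 1) (le_max_right _ _)).1).subset fun χ hχ => ⟨hχ.1, hχ.2.trans (le_max_left _ _)⟩
  have hcf : ∀ χ, (Dn Q S χ : ℝ) = H38.MT.cf Q S χ := dn_cast Q S
  have hPn : ∀ R : ℕ, {χ : Gal(QBar/K) →* Multiplicative (ZMod 3) | χ ∈ H38.MT.Ch K ∧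
      Dn Q S χ ≤ R}.Finite := fun R => (hP R).subset fun χ hχ => ⟨hχ.1, by
        rw [← hcf]
        exact_mod_cast hχ.2⟩
  have hPe : ∀ R : ℕ, (hPn R).toFinset = (hP R).toFinset := by
    intro R
    ext χ
    rw [Set.Finite.mem_toFinset, Set.Finite.mem_toFinset]
    change χ ∈ H38.MT.Ch K ∧ Dn Q S χ ≤ R ↔ χ ∈ H38.MT.Ch K ∧ H38.MT.cf Q S χ ≤ R
    rw [← hcf, Nat.cast_le]
  obtain ⟨C₂, hC₂, ha3⟩ := H38.EN.af3 K
  obtain ⟨C₃, hC₃, hlq⟩ := H38.EN.lqt K QBar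
  obtain ⟨C₄, hC₄, hmu⟩ := H38.EN.mup Q S
  obtain ⟨C₅, A₅, δ₅, hC₅, hδ₅0, hδ₅1, hli⟩ := h1
  obtain ⟨C₆, A₆, δ₆, hC₆, hδ₆0, hδ₆1, hla⟩ := h3
  obtain ⟨C₇, A₇, hC₇, hdd⟩ := ddg Q S hS2 hS3 hL
  obtain ⟨C₈, hC₈, hcn⟩ := cnt3 hm hL
  -- the sets of error terms
  have hZ : ∀ (d : ℕ) (χ : Gal(QBar/K) →* Multiplicative (ZMod 3)),
      ∃ Z : Finset (H57.LI.AP K QBar (mS S)), χ ∈ H38.MT.Ch K →
      (∀ x ∈ Z, x.F = FX χ) ∧ (Z.card : ℝ) ≤ C₀ * selg (FX χ) ∧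
        ∀ Y : ℝ, 1 ≤ Y → (Fib k Q S ds χ d Y).Finite ∧
          |((Fib k Q S ds χ d Y).ncard : ℝ) - W d χ * H38.MT.mq Q S χ Y| ≤
            C₀ + C₀ * ∑ x ∈ Z, |∑ q ∈ IN K Y, x.lq q| ∧
          ((Fib k Q S ds χ d Y).ncard : ℝ) ≤
            C₀ * selg (FX χ) * ∑ q ∈ AF K Y, (3 : ℝ) ^ q.card := by
    intro d χ
    by_cases h : χ ∈ H38.MT.Ch K
    · obtain ⟨Z, hZ⟩ := hfm d χ h
      exact ⟨Z, fun _ => hZ⟩
    · exact ⟨∅, fun h' => absurd h' h⟩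
  choose Z hZ using hZ
  have hDx : ∀ d, ∀ χ ∈ H38.MT.Ch K, ∀ x ∈ Z d χ, x.D ≤ C₇ * (Dn Q S χ : ℝ) ^ A₇ := by
    intro d χ hχ x hx
    rw [hcf]
    exact hdd χ hχ x.F x.nf ((hZ d χ hχ).1 x hx)
  have hlog : ∀ Y : ℝ, 1 ≤ Y → 0 ≤ Real.log Y := fun Y hY => Real.log_nonneg hY
  -- the mean values
  have hmea := fun d => mab hL Am h5 hP (W d) (fun χ => (hWb d χ).1) (hWi d)
  choose L hL0 hLp hLt using hmea
  -- the data
  obtain ⟨C, hC⟩ : ∃ C : ℝ, C = (C₀ + 1) + (C₁ + C₈) + C₀ * C₂ + (C₃ + C₄ + C₆) + C₅ * C₇ ^ A₅ :=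
    ⟨_, rfl⟩
  have h02 : 0 < C₀ * C₂ := mul_pos (by linarith) (by linarith)
  have h57 : 0 < C₅ * C₇ ^ A₅ := by positivity
  have hCa : C₀ + 1 ≤ C := by rw [hC]; linarith
  have hCb : C₁ + C₈ ≤ C := by rw [hC]; linarith
  have hCc : C₀ * C₂ ≤ C := by rw [hC]; linarith
  have hCd : C₃ + C₄ + C₆ ≤ C := by rw [hC]; linarith
  have hCe : C₅ * C₇ ^ A₅ ≤ C := by rw [hC]; linarith
  have hC0 : C₀ ≤ C := by linarith
  have hC00 : 0 < C := by linarith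
  have key : ∀ d : ℕ, ∃ e : EE1 (Gal(QBar/K) →* Multiplicative (ZMod 3))
      (H57.LI.AP K QBar (mS S) ⊕ (Gal(QBar/K) →* Multiplicative (ZMod 3))),
      e.P = H38.MT.Ch K ∧ e.D = Dn Q S ∧
      (e.N = fun χ Y => ((Fib k Q S ds χ d Y).ncard : ℝ)) ∧ e.a = L d := by
    intro d
    refine ⟨{
      P := H38.MT.Ch K
      D := Dn Q S
      s := fun χ => (selg (FX χ) : ℝ) + 1
      N := fun χ Y => ((Fib k Q S ds χ d Y).ncard : ℝ)
      w := fun χ => if χ ∈ H38.MT.Ch K then W d χ * Am χ else 0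
      Z := fun χ => (Z d χ).disjSum {χ}
      F := nF Q S Am
      C := C
      δ := min δ₅ δ₆
      lo := 1 - δ
      A := max (A₇ * A₅) A₆
      a := L d
      C1 := by linarith
      δ0 := lt_min hδ₅0 hδ₆0
      δ1 := (min_le_right _ _).trans hδ₆1
      lo0 := by linarith
      lo1 := by linarith
      D1 := fun χ _ => dn1 Q S χ
      s1 := fun χ _ => by
        have : (0 : ℝ) ≤ selg (FX χ) := Nat.cast_nonneg _
        linarith
      fin := hPn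
      sm := ?_
      N0 := fun _ _ => Nat.cast_nonneg _
      N1 := ?_
      w0 := ?_
      Zc := ?_
      Zm := ?_
      F0 := nF0 Q S Am
      FT := ?_
      F1 := ?_
      F2 := ?_
      E1 := ?_
      m := ?_ }, rfl, rfl, rfl, rfl⟩
    · intro R hR T hT
      have hR1 : (1 : ℝ) ≤ R := by exact_mod_cast hR
      have hT' : ∀ χ ∈ T, χ ∈ H38.MT.Ch K ∧ H38.MT.cf Q S χ ≤ (R : ℝ) := fun χ hχ =>
        ⟨(hT χ hχ).1, by rw [← hcf]; exact_mod_cast (hT χ hχ).2⟩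
      have h6 := (hsm R hR1).2 T hT'
      have h7 := hcn R hR1 T hT'
      have h8 : (1 : ℝ) ≤ (1 + Real.log R) ^ (1 - δ) :=
        Real.one_le_rpow (by linarith [hlog R hR1]) (by linarith)
      rw [Finset.sum_add_distrib, Finset.sum_const, nsmul_eq_mul, mul_one]
      have h9 : ((1 : ℕ) : ℝ) - δ = 1 - δ := by norm_num
      rw [h9] at h6
      calc ∑ χ ∈ T, (selg (FX χ) : ℝ) + T.card
          ≤ C₁ * R * (1 + Real.log R) ^ (1 - δ) + C₈ * R * 1 := by linarith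
        _ ≤ C₁ * R * (1 + Real.log R) ^ (1 - δ) + C₈ * R * (1 + Real.log R) ^ (1 - δ) := by
            gcongr
        _ = (C₁ + C₈) * (R * (1 + Real.log R) ^ (1 - δ)) := by ring
        _ ≤ C * (R * (1 + Real.log R) ^ (1 - δ)) :=
            mul_le_mul_of_nonneg_right hCb (by positivity)
        _ = C * R * (1 + Real.log R) ^ (1 - δ) := by ring
    · intro χ hχ Y hY
      have h6 := ((hZ d χ hχ).2.2 Y hY).2.2
      have h7 := ha3 Y hY
      have h8 : (0 : ℝ) ≤ selg (FX χ) := Nat.cast_nonneg _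
      have h9 : 0 ≤ Y * (1 + Real.log Y) ^ 2 := mul_nonneg (by linarith) (sq_nonneg _)
      calc ((Fib k Q S ds χ d Y).ncard : ℝ)
          ≤ C₀ * selg (FX χ) * ∑ q ∈ AF K Y, (3 : ℝ) ^ q.card := h6
        _ ≤ C₀ * selg (FX χ) * (C₂ * Y * (1 + Real.log Y) ^ 2) :=
            mul_le_mul_of_nonneg_left h7 (mul_nonneg (by linarith) h8)
        _ = (C₀ * C₂) * (selg (FX χ) * (Y * (1 + Real.log Y) ^ 2)) := by ring
        _ ≤ C * ((selg (FX χ) + 1) * (Y * (1 + Real.log Y) ^ 2)) :=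
            mul_le_mul hCc (mul_le_mul_of_nonneg_right (by linarith) h9) (mul_nonneg h8 h9) hC00.le
        _ = C * (selg (FX χ) + 1) * Y * (1 + Real.log Y) ^ 2 := by ring
    · intro χ
      by_cases hχ : χ ∈ H38.MT.Ch K
      · rw [if_pos hχ]
        exact mul_nonneg (hWb d χ).1 (hla χ hχ).1
      · rw [if_neg hχ]
    · intro χ hχ
      have h6 := (hZ d χ hχ).2.1
      have h8 : (0 : ℝ) ≤ selg (FX χ) := Nat.cast_nonneg _
      rw [Finset.card_disjSum, Finset.card_singleton]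
      push_cast
      calc ((Z d χ).card : ℝ) + 1 ≤ C₀ * selg (FX χ) + 1 := by linarith
        _ ≤ (C₀ + 1) * (selg (FX χ) + 1) := by nlinarith
        _ ≤ C * (selg (FX χ) + 1) := mul_le_mul_of_nonneg_right hCa (by linarith)
    · intro x T hT
      cases x with
      | inl x =>
        refine H38.EN.mul3 x.F T fun χ hχ => ?_
        obtain ⟨h6, h7⟩ := hT χ hχ
        rw [Finset.inl_mem_disjSum] at h7
        exact ⟨h6, (hZ d χ h6).1 x h7⟩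
      | inr χ' =>
        have hsub : T ⊆ {χ'} := by
          intro χ hχ
          obtain ⟨-, h7⟩ := hT χ hχ
          rw [Finset.inr_mem_disjSum, Finset.mem_singleton] at h7
          rw [Finset.mem_singleton, h7]
        have := Finset.card_le_card hsub
        rw [Finset.card_singleton] at this
        omega
    · intro χ hχ x hx Y hY
      have hD1 : (1 : ℝ) ≤ Dn Q S χ := by exact_mod_cast dn1 Q S χ
      have hlD := hlog _ hD1
      have hlY := hlog Y hY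
      have ha : (1 : ℝ) ≤ (1 + Real.log (Dn Q S χ)) ^ 3 := one_le_pow₀ (by linarith)
      have hb : (1 : ℝ) ≤ (1 + Real.log Y) ^ 2 := one_le_pow₀ (by linarith)
      have hb0 : 0 ≤ Y * (1 + Real.log Y) ^ 2 := mul_nonneg (by linarith) (sq_nonneg _)
      have hP1 : Y * (1 + Real.log Y) ^ 2 ≤ Y * (1 + Real.log Y) ^ 2 * (1 + Real.log (Dn Q S χ)) ^ 3 :=
        le_mul_of_one_le_right hb0 ha
      have hP2 : (1 + Real.log (Dn Q S χ)) ^ 3 * Y ≤
          Y * (1 + Real.log Y) ^ 2 * (1 + Real.log (Dn Q S χ)) ^ 3 := by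
        have h6 : Y ≤ Y * (1 + Real.log Y) ^ 2 := le_mul_of_one_le_right (by linarith) hb
        calc (1 + Real.log (Dn Q S χ)) ^ 3 * Y
            ≤ (1 + Real.log (Dn Q S χ)) ^ 3 * (Y * (1 + Real.log Y) ^ 2) :=
              mul_le_mul_of_nonneg_left h6 (by linarith)
          _ = _ := by ring
      have hP0 : 0 ≤ Y * (1 + Real.log Y) ^ 2 * (1 + Real.log (Dn Q S χ)) ^ 3 :=
        mul_nonneg hb0 (by linarith)
      cases x with
      | inl x =>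
        have h6 := hlq (mS S) x Y hY
        change |∑ q ∈ IN K Y, x.lq q| ≤ _
        calc |∑ q ∈ IN K Y, x.lq q| ≤ C₃ * (Y * (1 + Real.log Y) ^ 2) := by linarith
          _ ≤ C₃ * (Y * (1 + Real.log Y) ^ 2 * (1 + Real.log (Dn Q S χ)) ^ 3) :=
              mul_le_mul_of_nonneg_left hP1 (by linarith)
          _ ≤ C * (Y * (1 + Real.log Y) ^ 2 * (1 + Real.log (Dn Q S χ)) ^ 3) :=
              mul_le_mul_of_nonneg_right (by linarith) hP0
          _ = _ := by ring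
      | inr χ' =>
        rw [Finset.inr_mem_disjSum, Finset.mem_singleton] at hx
        subst hx
        obtain ⟨h6, h7⟩ := hmu χ' Y hY
        obtain ⟨h8, h9, -⟩ := hla χ' hχ
        rw [← hcf] at h9
        change |H38.MT.mq Q S χ' Y - Am χ' * Y| ≤ _
        have h10 : |H38.MT.mq Q S χ' Y - Am χ' * Y| ≤ H38.MT.mq Q S χ' Y + Am χ' * Y := by
          have h11 : 0 ≤ Am χ' * Y := mul_nonneg h8 (by linarith)
          rw [abs_le]
          constructor <;> linarith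
        have h12 : Am χ' * Y ≤ C₆ * (1 + Real.log (Dn Q S χ')) ^ 3 * Y :=
          mul_le_mul_of_nonneg_right h9 (by linarith)
        calc |H38.MT.mq Q S χ' Y - Am χ' * Y| ≤ C₄ * (Y * (1 + Real.log Y) ^ 2) +
              C₆ * ((1 + Real.log (Dn Q S χ')) ^ 3 * Y) := by linarith
          _ ≤ C₄ * (Y * (1 + Real.log Y) ^ 2 * (1 + Real.log (Dn Q S χ')) ^ 3) +
              C₆ * (Y * (1 + Real.log Y) ^ 2 * (1 + Real.log (Dn Q S χ')) ^ 3) :=
              add_le_add (mul_le_mul_of_nonneg_left hP1 (by linarith))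
                (mul_le_mul_of_nonneg_left hP2 (by linarith))
          _ = (C₄ + C₆) * (Y * (1 + Real.log Y) ^ 2 * (1 + Real.log (Dn Q S χ')) ^ 3) := by ring
          _ ≤ C * (Y * (1 + Real.log Y) ^ 2 * (1 + Real.log (Dn Q S χ')) ^ 3) :=
              mul_le_mul_of_nonneg_right (by linarith) hP0
          _ = _ := by ring
    · intro χ hχ x hx Y hY
      have hD1 : (1 : ℝ) ≤ Dn Q S χ := by exact_mod_cast dn1 Q S χ
      have hgen : ∀ (C' : ℝ) (A' : ℕ) (δ' : ℝ), 0 ≤ C' → C' ≤ C → A' ≤ max (A₇ * A₅) A₆ →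
          min δ₅ δ₆ ≤ δ' → C' * (Dn Q S χ : ℝ) ^ A' * Y ^ (1 - δ') ≤
            C * (Dn Q S χ : ℝ) ^ (max (A₇ * A₅) A₆) * Y ^ (1 - min δ₅ δ₆) := by
        intro C' A' δ' hC'0 hC' hA' hδ'
        have h6 : (Dn Q S χ : ℝ) ^ A' ≤ (Dn Q S χ : ℝ) ^ (max (A₇ * A₅) A₆) :=
          pow_le_pow_right₀ hD1 hA'
        have h7 : Y ^ (1 - δ') ≤ Y ^ (1 - min δ₅ δ₆) :=
          Real.rpow_le_rpow_of_exponent_le hY (by linarith)
        have h8 : (0 : ℝ) ≤ (Dn Q S χ : ℝ) ^ A' := by positivity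
        refine mul_le_mul (mul_le_mul hC' h6 h8 hC00.le) h7 (Real.rpow_nonneg (by linarith) _) ?_
        positivity
      cases x with
      | inl x =>
        rw [Finset.inl_mem_disjSum] at hx
        have h6 := hli x Y hY
        have h7 := hDx d χ hχ x hx
        have h8 : (0 : ℝ) ≤ x.D := abs_nonneg _
        have h9 : x.D ^ A₅ ≤ C₇ ^ A₅ * (Dn Q S χ : ℝ) ^ (A₇ * A₅) := by
          calc x.D ^ A₅ ≤ (C₇ * (Dn Q S χ : ℝ) ^ A₇) ^ A₅ := pow_le_pow_left₀ h8 h7 A₅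
            _ = C₇ ^ A₅ * (Dn Q S χ : ℝ) ^ (A₇ * A₅) := by rw [mul_pow, ← pow_mul]
        have hY0 : 0 ≤ Y ^ (1 - δ₅) := Real.rpow_nonneg (by linarith) _
        change |∑ q ∈ IN K Y, x.lq q| ≤ _
        calc |∑ q ∈ IN K Y, x.lq q| ≤ C₅ * x.D ^ A₅ * Y ^ (1 - δ₅) := h6
          _ ≤ C₅ * (C₇ ^ A₅ * (Dn Q S χ : ℝ) ^ (A₇ * A₅)) * Y ^ (1 - δ₅) :=
              mul_le_mul_of_nonneg_right (mul_le_mul_of_nonneg_left h9 (by linarith)) hY0
          _ = (C₅ * C₇ ^ A₅) * (Dn Q S χ : ℝ) ^ (A₇ * A₅) * Y ^ (1 - δ₅) := by ring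
          _ ≤ _ := hgen _ _ _ h57.le hCe (le_max_left _ _) (min_le_left _ _)
      | inr χ' =>
        rw [Finset.inr_mem_disjSum, Finset.mem_singleton] at hx
        subst hx
        have h6 := (hla χ' hχ).2.2 Y hY
        rw [← hcf] at h6
        exact h6.trans (hgen _ _ _ (by linarith) (by linarith) (le_max_right _ _) (min_le_right _ _))
    · intro B ε hε
      obtain ⟨R₀, hR₀, h6⟩ := n_exc h2 h4 (A₇ + 1) B ε hε
      refine ⟨max R₀ C₇, hR₀.trans (le_max_left _ _), fun R hR J hJ => ?_⟩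
      have hRa : R₀ ≤ R := (le_max_left _ _).trans hR
      have hRb : C₇ ≤ R := (le_max_right _ _).trans hR
      refine h6 R hRa J ?_ ?_ fun x hx => (hJ x hx).2
      · intro x hx
        obtain ⟨⟨χ, hχ, hxZ, hD⟩, -⟩ := hJ _ hx
        rw [Finset.inl_mem_disjSum] at hxZ
        have h7 := hDx d χ hχ x hxZ
        have h8 : (Dn Q S χ : ℝ) ^ A₇ ≤ R ^ A₇ := pow_le_pow_left₀ (Nat.cast_nonneg _) hD _
        have h9 : 0 ≤ R := by linarith
        calc x.D ≤ C₇ * (Dn Q S χ : ℝ) ^ A₇ := h7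
          _ ≤ R * R ^ A₇ := mul_le_mul hRb h8 (by positivity) h9
          _ = R ^ (A₇ + 1) := by ring
      · intro χ hχJ
        obtain ⟨⟨χ', hχ', hxZ, hD⟩, -⟩ := hJ _ hχJ
        rw [Finset.inr_mem_disjSum, Finset.mem_singleton] at hxZ
        subst hxZ
        rw [hcf] at hD
        exact ⟨hχ', hD⟩
    · intro χ hχ Y hY
      have h6 := ((hZ d χ hχ).2.2 Y hY).2.1
      obtain ⟨h7, h8⟩ := hWb d χ
      rw [Finset.sum_disjSum, Finset.sum_singleton, if_pos hχ]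
      change |((Fib k Q S ds χ d Y).ncard : ℝ) - W d χ * Am χ * Y| ≤
        C + C * (∑ x ∈ Z d χ, |∑ q ∈ IN K Y, x.lq q| + |H38.MT.mq Q S χ Y - Am χ * Y|)
      have h9 : ((Fib k Q S ds χ d Y).ncard : ℝ) - W d χ * Am χ * Y =
          (((Fib k Q S ds χ d Y).ncard : ℝ) - W d χ * H38.MT.mq Q S χ Y) +
            W d χ * (H38.MT.mq Q S χ Y - Am χ * Y) := by ring
      have h10 : |W d χ * (H38.MT.mq Q S χ Y - Am χ * Y)| ≤
          C₀ * |H38.MT.mq Q S χ Y - Am χ * Y| := by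
        rw [abs_mul, abs_of_nonneg h7]
        exact mul_le_mul_of_nonneg_right h8 (abs_nonneg _)
      have h11 : 0 ≤ ∑ x ∈ Z d χ, |∑ q ∈ IN K Y, x.lq q| :=
        Finset.sum_nonneg fun _ _ => abs_nonneg _
      have h12 : 0 ≤ |H38.MT.mq Q S χ Y - Am χ * Y| := abs_nonneg _
      rw [h9]
      refine (abs_add_le _ _).trans ?_
      calc _ ≤ (C₀ + C₀ * ∑ x ∈ Z d χ, |∑ q ∈ IN K Y, x.lq q|) +
              C₀ * |H38.MT.mq Q S χ Y - Am χ * Y| := add_le_add h6 h10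
        _ = C₀ + C₀ * (∑ x ∈ Z d χ, |∑ q ∈ IN K Y, x.lq q| +
              |H38.MT.mq Q S χ Y - Am χ * Y|) := by ring
        _ ≤ _ := add_le_add hC0 (mul_le_mul_of_nonneg_right hC0 (by linarith))
    · refine ((hLt d).comp tendsto_natCast_atTop_atTop).congr fun R => ?_
      simp only [Function.comp_apply]
      rw [hPe R]
      congr 1
      refine Finset.sum_congr rfl fun χ hχ => ?_
      rw [Set.Finite.mem_toFinset] at hχ
      rw [if_pos hχ.1]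
  have hfinF : ∀ d, ∀ χ ∈ H38.MT.Ch K, ∀ Y : ℝ, 1 ≤ Y → (Fib k Q S ds χ d Y).Finite :=
    fun d χ hχ Y hY => ((hZ d χ hχ).2.2 Y hY).1
  have hnd := fun d => H38.EN.nds k Q S ds d (hfinF d) hP
  refine ⟨fun d X => (hnd d X).1, L, hL0, ?_, fun d => ?_⟩
  · obtain ⟨χ, hχ⟩ := hne
    obtain ⟨d, hd⟩ := hWp χ hχ
    exact ⟨d, hLp d ⟨χ, hχ, hd⟩⟩
  · obtain ⟨e, heP, heD, heN, hea⟩ := key d
    have h6 := elim e
    rw [hea] at h6
    refine h6.congr' ?_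
    filter_upwards [eventually_ge_atTop (0 : ℝ)] with X hX
    congr 1
    have h7 : (e.fin ⌊X⌋₊).toFinset = (hP X).toFinset := by
      ext χ
      rw [Set.Finite.mem_toFinset, Set.Finite.mem_toFinset]
      change χ ∈ e.P ∧ e.D χ ≤ ⌊X⌋₊ ↔ χ ∈ H38.MT.Ch K ∧ H38.MT.cf Q S χ ≤ X
      rw [heP, heD, Nat.le_floor_iff hX, hcf]
    rw [(hnd d X).2, Nat.cast_sum, h7]
    refine Finset.sum_congr rfl fun χ _ => ?_
    rw [heN, heD, ← hcf]

end H67.AQ
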